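import Mathlib.Tactic.Abel
import Mathlib.Algebra.BigOperators.Fin
import Mathlib.Logic.Equiv.Fin.Rotate
import Mathlib.Data.ZMod.Defs
import Mathlib.Tactic.Module
import Mathlib.Algebra.Notation.Lemmas
import Mathlib.Tactic.LinearCombination
import Mathlib.Data.Int.ConditionallyCompleteOrder

/- Alcove-walk model of tricolor paths: cells, directed edges (states), the deterministic
successor map, wall levels, symmetries and locality. -/

set_option autoImplicit false
open scoped Classical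

namespace Pool.Agent.MP_5f6c2d_pr.h58

abbrev Cl := Fin 3 → ℤ
abbrev P4 := Equiv.Perm (Fin 4)
abbrev St := Cl × P4
abbrev Om := Cl → Fin 3

def w (k : Fin 4) : Cl := fun m => if k.val = 3 then -1 else if m.val = k.val then 1 else 0
def b (i : Fin 4) (v : Cl) : ℤ := if h : i.val < 3 then v ⟨i.val, h⟩ else 0
def be (i j : Fin 4) (v : Cl) : ℤ := b i v - b j v

theorem be_add (i j : Fin 4) (u v : Cl) : be i j (u + v) = be i j u + be i j v := by
  unfold be b; split_ifs <;> simp <;> ring

theorem be_sub (i j : Fin 4) (u v : Cl) : be i j (u - v) = be i j u - be i j v := by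
  unfold be b; split_ifs <;> simp <;> ring

theorem be_smul (i j : Fin 4) (n : ℤ) (v : Cl) : be i j (n • v) = n * be i j v := by
  unfold be b; split_ifs <;> simp <;> ring

theorem be_w (i j k : Fin 4) :
    be i j (w k) = (if i = k then 1 else 0) - (if j = k then 1 else 0) := by
  revert i j k; decide

theorem wsum (π : P4) : w (π 0) + w (π 1) + w (π 2) + w (π 3) = 0 := by
  have h := Equiv.sum_comp π w
  rw [Fin.sum_univ_four, Fin.sum_univ_four] at h
  rw [h]; decide

theorem pinv (π : P4) (k : Fin 4) : π⁻¹ (π k) = k := π.symm_apply_apply k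

def cell (s : St) : Fin 4 → Cl :=
  ![s.1, s.1 + w (s.2 0), s.1 + w (s.2 0) + w (s.2 1), s.1 - w (s.2 3)]

def flip (s : St) : St := (s.1 + w (s.2 0) - w (s.2 3), s.2 * Equiv.swap 0 3)
def rot (s : St) : St := (s.1 + w (s.2 0), s.2 * finRotate 4)

theorem fr0 : finRotate 4 0 = 1 := by decide
theorem fr1 : finRotate 4 1 = 2 := by decide
theorem fr2 : finRotate 4 2 = 3 := by decide
theorem fr3 : finRotate 4 3 = 0 := by decide
theorem sw1 : Equiv.swap (0 : Fin 4) 3 1 = 1 := by decide
theorem sw2 : Equiv.swap (0 : Fin 4) 3 2 = 2 := by decide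

@[simp] theorem flip_0 (s : St) : (flip s).2 0 = s.2 3 := by simp [flip]
@[simp] theorem flip_1 (s : St) : (flip s).2 1 = s.2 1 := by simp [flip, sw1]
@[simp] theorem flip_2 (s : St) : (flip s).2 2 = s.2 2 := by simp [flip, sw2]
@[simp] theorem flip_3 (s : St) : (flip s).2 3 = s.2 0 := by simp [flip]
@[simp] theorem rot_0 (s : St) : (rot s).2 0 = s.2 1 := by simp only [rot, Equiv.Perm.mul_apply, fr0]
@[simp] theorem rot_1 (s : St) : (rot s).2 1 = s.2 2 := by simp only [rot, Equiv.Perm.mul_apply, fr1]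
@[simp] theorem rot_2 (s : St) : (rot s).2 2 = s.2 3 := by simp only [rot, Equiv.Perm.mul_apply, fr2]
@[simp] theorem rot_3 (s : St) : (rot s).2 3 = s.2 0 := by simp only [rot, Equiv.Perm.mul_apply, fr3]

theorem St.ext4 {s t : St} (h : s.1 = t.1) (h0 : s.2 0 = t.2 0) (h1 : s.2 1 = t.2 1)
    (h2 : s.2 2 = t.2 2) (h3 : s.2 3 = t.2 3) : s = t := by
  refine Prod.ext h (Equiv.ext fun k => ?_)
  fin_cases k
  exacts [h0, h1, h2, h3]

theorem flip_fst (s : St) : (flip s).1 = s.1 + w (s.2 0) - w (s.2 3) := rfl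
theorem rot_fst (s : St) : (rot s).1 = s.1 + w (s.2 0) := rfl

@[simp] theorem flip_flip (s : St) : flip (flip s) = s := by
  apply St.ext4 <;> simp [flip_fst]

theorem rot4 (s : St) : rot (rot (rot (rot s))) = s := by
  apply St.ext4 <;> simp [rot_fst]
  have := wsum s.2
  rw [add_assoc, add_assoc, add_assoc, add_eq_left, ← add_assoc, ← add_assoc]; exact this

theorem cell_0 (s : St) : cell s 0 = s.1 := rfl
theorem cell_1 (s : St) : cell s 1 = s.1 + w (s.2 0) := rfl
theorem cell_2 (s : St) : cell s 2 = s.1 + w (s.2 0) + w (s.2 1) := rfl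
theorem cell_3 (s : St) : cell s 3 = s.1 - w (s.2 3) := rfl

theorem cell_3' (s : St) : cell s 3 = s.1 + w (s.2 0) + w (s.2 1) + w (s.2 2) := by
  rw [cell_3]; linear_combination (exp := 1) -(wsum s.2)

@[simp] theorem cell_rot0 (s : St) : cell (rot s) 0 = cell s 1 := rfl
@[simp] theorem cell_rot1 (s : St) : cell (rot s) 1 = cell s 2 := by
  simp [cell_1, cell_2, rot_fst]
@[simp] theorem cell_rot2 (s : St) : cell (rot s) 2 = cell s 3 := by
  simp [cell_2, cell_3', rot_fst]
@[simp] theorem cell_rot3 (s : St) : cell (rot s) 3 = cell s 0 := by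
  simp [cell_3, cell_0, rot_fst]
@[simp] theorem cell_flip1 (s : St) : cell (flip s) 1 = cell s 1 := by
  simp [cell_1, flip_fst]
@[simp] theorem cell_flip2 (s : St) : cell (flip s) 2 = cell s 2 := by
  simp [cell_2, flip_fst]
@[simp] theorem cell_flip3 (s : St) : cell (flip s) 3 = cell s 3 := by
  simp only [cell_3, flip_fst, flip_3]; abel

def tri (ω : Om) (s : St) : Prop :=
  ω (cell s 1) ≠ ω (cell s 2) ∧ ω (cell s 1) ≠ ω (cell s 3) ∧ ω (cell s 2) ≠ ω (cell s 3)

noncomputable def turn (ω : Om) (s : St) : St :=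
  if tri ω s then
    (if ω (cell s 1) = ω (cell s 0) then rot s
     else if ω (cell s 2) = ω (cell s 0) then rot (rot s) else rot (rot (rot s)))
  else s

noncomputable def nxt (ω : Om) (s : St) : St := turn ω (flip s)
noncomputable def X (ω : Om) (s : St) (t : ℕ) : St := (nxt ω)^[t] s

@[simp] theorem tri_flip (ω : Om) (s : St) : tri ω (flip s) ↔ tri ω s := by simp [tri]

theorem fin3 (x y z u : Fin 3) (h1 : x ≠ y) (h2 : x ≠ z) (h3 : y ≠ z) (h4 : x ≠ u) (h5 : y ≠ u) :
    z = u := by omega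

theorem turn_cases {ω : Om} {s : St} (h : tri ω s) :
    (ω (cell s 1) = ω (cell s 0) ∧ turn ω s = rot s) ∨
    (ω (cell s 2) = ω (cell s 0) ∧ turn ω s = rot (rot s)) ∨
    (ω (cell s 3) = ω (cell s 0) ∧ turn ω s = rot (rot (rot s))) := by
  unfold turn
  rw [if_pos h]
  split_ifs with h1 h2
  · exact Or.inl ⟨h1, rfl⟩
  · exact Or.inr (Or.inl ⟨h2, rfl⟩)
  · exact Or.inr (Or.inr ⟨fin3 _ _ _ _ h.1 h.2.1 h.2.2 h1 h2, rfl⟩)

theorem turn_eq1 {ω : Om} {s : St} (h : tri ω s) (e : ω (cell s 1) = ω (cell s 0)) :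
    turn ω s = rot s := by
  rcases turn_cases h with h' | h' | h'
  · exact h'.2
  · exact absurd (e.trans h'.1.symm) h.1
  · exact absurd (e.trans h'.1.symm) h.2.1

theorem turn_eq2 {ω : Om} {s : St} (h : tri ω s) (e : ω (cell s 2) = ω (cell s 0)) :
    turn ω s = rot (rot s) := by
  rcases turn_cases h with h' | h' | h'
  · exact absurd (h'.1.trans e.symm) h.1
  · exact h'.2
  · exact absurd (e.trans h'.1.symm) h.2.2

theorem turn_eq3 {ω : Om} {s : St} (h : tri ω s) (e : ω (cell s 3) = ω (cell s 0)) :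
    turn ω s = rot (rot (rot s)) := by
  rcases turn_cases h with h' | h' | h'
  · exact absurd (h'.1.trans e.symm) h.2.1
  · exact absurd (h'.1.trans e.symm) h.2.2
  · exact h'.2

theorem tri_turn {ω : Om} {s : St} (h : tri ω s) : tri ω (turn ω s) := by
  obtain ⟨h1, h2, h3⟩ := id h
  rcases turn_cases h with ⟨e, h'⟩ | ⟨e, h'⟩ | ⟨e, h'⟩ <;> rw [h'] <;> simp only [tri, cell_rot0,
    cell_rot1, cell_rot2, cell_rot3] <;> rw [← e] <;> refine ⟨?_, ?_, ?_⟩ <;>
    first | assumption | exact Ne.symm ‹_›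

theorem turn_turn (ω : Om) (s : St) : turn ω (turn ω s) = s := by
  by_cases h : tri ω s
  · have ht := tri_turn h
    rcases turn_cases h with ⟨e, h'⟩ | ⟨e, h'⟩ | ⟨e, h'⟩ <;> rw [h'] at ht ⊢
    · rw [turn_eq3 ht (by simpa using e.symm), rot4]
    · rw [turn_eq2 ht (by simpa using e.symm), rot4]
    · rw [turn_eq1 ht (by simpa using e.symm), rot4]
  · have : turn ω s = s := by unfold turn; rw [if_neg h]
    rw [this, this]

theorem tri_nxt {ω : Om} {s : St} (h : tri ω s) : tri ω (nxt ω s) :=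
  tri_turn ((tri_flip ω s).2 h)

theorem nxt_flip_nxt (ω : Om) (s : St) : nxt ω (flip (nxt ω s)) = flip s := by
  unfold nxt; rw [flip_flip, turn_turn]

theorem nxt_inj (ω : Om) : Function.Injective (nxt ω) := by
  intro s t h
  have := nxt_flip_nxt ω s
  rw [h, nxt_flip_nxt] at this
  rw [← flip_flip s, ← this, flip_flip]

@[simp] theorem X_zero (ω : Om) (s : St) : X ω s 0 = s := rfl
theorem X_succ (ω : Om) (s : St) (t : ℕ) : X ω s (t + 1) = nxt ω (X ω s t) :=
  Function.iterate_succ_apply' _ _ _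
theorem X_add (ω : Om) (s : St) (t u : ℕ) : X ω (X ω s t) u = X ω s (t + u) := by
  unfold X; rw [add_comm, Function.iterate_add_apply]

theorem X_inj (ω : Om) (t : ℕ) {s s' : St} (h : X ω s t = X ω s' t) : s = s' :=
  (nxt_inj ω).iterate t h

theorem tri_X {ω : Om} {s : St} (h : tri ω s) (t : ℕ) : tri ω (X ω s t) := by
  induction t with
  | zero => exact h
  | succ t ih => rw [X_succ]; exact tri_nxt ih

theorem X_rev (ω : Om) (s : St) (t v : ℕ) (h : v ≤ t) :
    X ω (flip (X ω s t)) v = flip (X ω s (t - v)) := by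
  induction v with
  | zero => rfl
  | succ v ih =>
    rw [X_succ, ih (by omega), show t - v = (t - (v + 1)) + 1 by omega, X_succ, nxt_flip_nxt]

/- Two starting states whose paths meet lie on one path. -/
theorem X_meet {ω : Om} {s s' : St} {t t' : ℕ} (h : X ω s t = X ω s' t') (ht : t' ≤ t) :
    s' = X ω s (t - t') := by
  apply X_inj ω t'
  rw [X_add, ← h]; congr 1; omega

def L (i j : Fin 4) (s : St) : ℤ := be i j s.1 - (if s.2⁻¹ j < s.2⁻¹ i then 1 else 0)

theorem L_rot (i j : Fin 4) (s : St) : L i j (rot s) = L i j s := by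
  obtain ⟨a, π⟩ := s
  obtain ⟨α, rfl⟩ := π.surjective i
  obtain ⟨β, rfl⟩ := π.surjective j
  simp only [L, rot, be_add, be_w, mul_inv_rev, Equiv.Perm.mul_apply, pinv,
    EmbeddingLike.apply_eq_iff_eq]
  have : ((if α = 0 then 1 else 0) - (if β = 0 then 1 else 0) : ℤ) -
      (if (finRotate 4)⁻¹ β < (finRotate 4)⁻¹ α then 1 else 0) = - (if β < α then 1 else 0) := by
    revert α β; decide
  omega

theorem L_flip (i j : Fin 4) (s : St) : L i j (flip s) = L i j s +
    (if i = s.2 0 ∧ j = s.2 3 then 1 else 0) - (if j = s.2 0 ∧ i = s.2 3 then 1 else 0) := by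
  obtain ⟨a, π⟩ := s
  obtain ⟨α, rfl⟩ := π.surjective i
  obtain ⟨β, rfl⟩ := π.surjective j
  simp only [L, flip, be_add, be_sub, be_w, mul_inv_rev, Equiv.Perm.mul_apply,
    pinv, EmbeddingLike.apply_eq_iff_eq]
  have : ((if α = 0 then 1 else 0) - (if β = 0 then 1 else 0) : ℤ) -
      ((if α = 3 then 1 else 0) - (if β = 3 then 1 else 0)) -
      (if (Equiv.swap (0 : Fin 4) 3)⁻¹ β < (Equiv.swap (0 : Fin 4) 3)⁻¹ α then 1 else 0) =
      - (if β < α then 1 else 0) + (if α = 0 ∧ β = 3 then 1 else 0) -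
        (if β = 0 ∧ α = 3 then 1 else 0) := by
    revert α β; decide
  omega

theorem L_turn (i j : Fin 4) (ω : Om) (s : St) : L i j (turn ω s) = L i j s := by
  unfold turn; split_ifs <;> simp only [L_rot]

theorem L_nxt (i j : Fin 4) (ω : Om) (s : St) : L i j (nxt ω s) = L i j (flip s) := L_turn _ _ _ _

theorem L_X_succ (i j : Fin 4) (ω : Om) (s : St) (t : ℕ) :
    L i j (X ω s (t + 1)) = L i j (flip (X ω s t)) := by rw [X_succ, L_nxt]

theorem L_cell (i j : Fin 4) (s : St) (k : Fin 4) :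
    L i j s ≤ be i j (cell s k) ∧ be i j (cell s k) ≤ L i j s + 1 := by
  obtain ⟨a, π⟩ := s
  obtain ⟨α, rfl⟩ := π.surjective i
  obtain ⟨β, rfl⟩ := π.surjective j
  fin_cases k <;>
  simp only [L, cell, be_add, be_sub, be_w, pinv,
    EmbeddingLike.apply_eq_iff_eq, Fin.zero_eta, Fin.mk_one, Fin.reduceFinMk, Matrix.cons_val] <;>
  fin_cases α <;> fin_cases β <;> simp

theorem L_wall (s : St) (k : Fin 4) (hk : k ≠ 0) :
    be (s.2 0) (s.2 3) (cell s k) = L (s.2 0) (s.2 3) s + 1 := by
  obtain ⟨a, π⟩ := s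
  fin_cases k
  · exact absurd rfl hk
  all_goals simp [L, cell, be_add, be_sub, be_w]

theorem L_anti {i j : Fin 4} (h : i ≠ j) (s : St) : L j i s = - L i j s - 1 := by
  have : s.2⁻¹ i ≠ s.2⁻¹ j := fun e => h (s.2⁻¹.injective e)
  unfold L be; split_ifs <;> omega

theorem L_self (i : Fin 4) (s : St) : L i i s = 0 := by simp [L, be]

theorem L_tri (i j k : Fin 4) (s : St) :
    L i j s + L j k s ≤ L i k s ∧ L i k s ≤ L i j s + L j k s + 1 := by
  unfold L be; split_ifs <;> omega

theorem p_ne (s : St) {α β : Fin 4} (h : α ≠ β) : s.2 α ≠ s.2 β := fun e => h (s.2.injective e)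

theorem L_flip_own (s : St) : L (s.2 0) (s.2 3) (flip s) = L (s.2 0) (s.2 3) s + 1 := by
  have := p_ne s (show (3 : Fin 4) ≠ 0 by decide)
  rw [L_flip]; simp [this]

theorem L_step (i j : Fin 4) (ω : Om) (s : St) (t : ℕ) :
    L i j (X ω s t) - 1 ≤ L i j (X ω s (t + 1)) ∧ L i j (X ω s (t + 1)) ≤ L i j (X ω s t) + 1 := by
  rw [L_X_succ, L_flip]; split_ifs <;> omega

theorem L_up {i j : Fin 4} {ω : Om} {s : St} {t : ℕ}
    (h : L i j (X ω s t) < L i j (X ω s (t + 1))) :
    (X ω s t).2 0 = i ∧ (X ω s t).2 3 = j := by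
  rw [L_X_succ, L_flip] at h
  split_ifs at h with h1 <;> first | exact ⟨h1.1.symm, h1.2.symm⟩ | omega

/- Symmetries of the model. -/
structure Sym where
  φ : Cl → Cl
  σ : P4
  inj : Function.Injective φ
  hw : ∀ v k, φ (v + w k) = φ v + w (σ k)
  hb : ∀ i j v v', be (σ i) (σ j) (φ v) - be (σ i) (σ j) (φ v') = be i j v - be i j v'

def Sym.act (g : Sym) (s : St) : St := (g.φ s.1, g.σ * s.2)

theorem Sym.act_snd (g : Sym) (s : St) (k : Fin 4) : (g.act s).2 k = g.σ (s.2 k) := rfl

theorem Sym.hw' (g : Sym) (v : Cl) (k : Fin 4) : g.φ (v - w k) = g.φ v - w (g.σ k) := by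
  have := g.hw (v - w k) k
  rw [sub_add_cancel] at this
  rw [this, add_sub_cancel_right]

theorem Sym.act_inj (g : Sym) : Function.Injective g.act := by
  intro s t h
  simp only [Sym.act, Prod.mk.injEq, mul_right_inj] at h
  exact Prod.ext (g.inj h.1) h.2

theorem Sym.cell_act (g : Sym) (s : St) (k : Fin 4) : cell (g.act s) k = g.φ (cell s k) := by
  fin_cases k <;> simp [cell, Sym.act, g.hw, g.hw']

theorem Sym.flip_act (g : Sym) (s : St) : flip (g.act s) = g.act (flip s) := by
  simp [flip, Sym.act, g.hw, g.hw', mul_assoc]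

theorem Sym.rot_act (g : Sym) (s : St) : rot (g.act s) = g.act (rot s) := by
  simp [rot, Sym.act, g.hw, mul_assoc]

theorem Sym.tri_act (g : Sym) (ω : Om) (s : St) :
    tri ω (g.act s) ↔ tri (fun v => ω (g.φ v)) s := by
  simp only [tri, g.cell_act]

theorem Sym.nxt_act (g : Sym) (ω : Om) (s : St) :
    nxt ω (g.act s) = g.act (nxt (fun v => ω (g.φ v)) s) := by
  unfold nxt turn
  simp only [g.flip_act, g.tri_act, g.cell_act, g.rot_act]
  split_ifs <;> rfl

theorem Sym.X_act (g : Sym) (ω : Om) (s : St) (t : ℕ) :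
    X ω (g.act s) t = g.act (X (fun v => ω (g.φ v)) s t) := by
  induction t with
  | zero => rfl
  | succ t ih => rw [X_succ, X_succ, ih, g.nxt_act]

/- Level of `s'` relative to `s` for the pair of positions `α, β` of `s`. -/
def rl (α β : Fin 4) (s s' : St) : ℤ := L (s.2 α) (s.2 β) s' - L (s.2 α) (s.2 β) s

theorem Sym.rl_act (g : Sym) (α β : Fin 4) (s s' : St) :
    rl α β (g.act s) (g.act s') = rl α β s s' := by
  have := g.hb (s.2 α) (s.2 β) s'.1 s.1
  simp only [rl, L, Sym.act, Equiv.Perm.mul_apply, mul_inv_rev, pinv]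
  omega

def tr (v : Cl) : Sym where
  φ u := u + v
  σ := 1
  inj := add_left_injective v
  hw u k := by simp only [Equiv.Perm.coe_one, id]; abel
  hb i j u u' := by simp only [Equiv.Perm.coe_one, id, be_add]; ring

theorem tr_act (v : Cl) (s : St) : (tr v).act s = (s.1 + v, s.2) := by simp [Sym.act, tr]

theorem L_tr (i j : Fin 4) (v : Cl) (s : St) : L i j ((tr v).act s) = L i j s + be i j v := by
  simp only [tr_act, L, be_add]; ring

def rf (i j : Fin 4) (hij : i ≠ j) (h : ℤ) : Sym where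
  φ u := u - (be i j u - h) • (w i - w j)
  σ := Equiv.swap i j
  inj := by
    intro u v e
    have e2 := congrArg (be i j) e
    simp only [be_sub, be_smul, be_w, if_true, if_neg hij, if_neg hij.symm] at e2
    have e3 : be i j u = be i j v := by omega
    simpa [e3] using e
  hw u k := by
    simp only [be_add, be_w]
    by_cases h1 : k = i
    · subst h1
      simp only [if_true, if_neg hij.symm, Equiv.swap_apply_left]; module
    · by_cases h2 : k = j
      · subst h2
        simp only [if_true, if_neg hij, Equiv.swap_apply_right]; module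
      · simp [Ne.symm h1, Ne.symm h2, Equiv.swap_apply_of_ne_of_ne h1 h2]; module
  hb a c u u' := by
    simp only [be_sub, be_smul, be_w]
    unfold be
    by_cases a1 : a = i <;> by_cases a2 : a = j <;> by_cases c1 : c = i <;> by_cases c2 : c = j <;>
    simp_all [Equiv.swap_apply_def, eq_comm] <;> ring

/- Locality. -/
theorem nxt_congr {ω ω' : Om} {s : St} (h : ∀ k, ω (cell (flip s) k) = ω' (cell (flip s) k)) :
    nxt ω s = nxt ω' s := by
  have e : tri ω (flip s) ↔ tri ω' (flip s) := by simp only [tri, h]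
  unfold nxt turn
  simp only [h, e]

theorem X_congr {ω ω' : Om} {s : St} {i j : Fin 4} {lo hi : ℤ} {T : ℕ}
    (h : ∀ v, lo ≤ be i j v → be i j v ≤ hi → ω v = ω' v)
    (hT : ∀ t, 1 ≤ t → t ≤ T → lo ≤ L i j (X ω s t) ∧ L i j (X ω s t) + 1 ≤ hi) :
    ∀ t, t ≤ T → X ω' s t = X ω s t := by
  intro t
  induction t with
  | zero => intro _; rfl
  | succ t ih =>
    intro ht
    rw [X_succ, X_succ, ih (by omega)]
    refine (nxt_congr fun k => ?_).symm
    have h1 := hT (t + 1) (by omega) ht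
    rw [L_X_succ] at h1
    have h2 := L_cell i j (flip (X ω s t)) k
    exact h _ (by omega) (by omega)

end Pool.Agent.MP_5f6c2d_pr.h58
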