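import Mathlib.Topology.Sheaves.Presheaf
import Mathlib.MeasureTheory.Measure.RegularityCompacts
import Mathlib.Topology.Separation.CompletelyRegular
import Mathlib.Probability.Independence.InfinitePi
import Pool.Agent.MP_5f6c2d_pr.h58.Model

/- Product measure, independence of disjoint regions, measurability, mass transport. -/

set_option autoImplicit false
set_option linter.unusedSectionVars false
open scoped Classical ENNReal
open MeasureTheory

namespace Pool.Agent.MP_5f6c2d_pr.h58

variable (ν : Measure (Fin 3)) [IsProbabilityMeasure ν]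

noncomputable def mu : Measure Om := Measure.infinitePi (fun _ : Cl => ν)

instance : IsProbabilityMeasure (mu ν) := by unfold mu; infer_instance

theorem mu_pre {φ : Cl → Cl} (hφ : Function.Injective φ) {E : Om → Prop}
    (hE : MeasurableSet {ω | E ω}) : mu ν {ω | E (fun v => ω (φ v))} = mu ν {ω | E ω} := by
  have h := Measure.map_infinitePi_infinitePi_of_inj (P := fun _ : Cl => ν) hφ
  have h2 := Measure.map_apply (μ := mu ν) (f := fun (ω : Om) v => ω (φ v)) (by fun_prop) hE
  unfold mu at *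
  rw [h] at h2
  exact h2.symm

def Det (R : Set Cl) (E : Set Om) : Prop := ∀ ω ω', (∀ v ∈ R, ω v = ω' v) → ω ∈ E → ω' ∈ E

theorem Det.mono {R R' : Set Cl} {E : Set Om} (h : Det R E) (hR : R ⊆ R') : Det R' E :=
  fun ω ω' e => h ω ω' fun v hv => e v (hR hv)

theorem Det.inter {R : Set Cl} {E E' : Set Om} (h : Det R E) (h' : Det R E') : Det R (E ∩ E') :=
  fun ω ω' e hh => ⟨h ω ω' e hh.1, h' ω ω' e hh.2⟩

noncomputable def mix (R : Set Cl) (x : Om × Om) : Om := fun v => if v ∈ R then x.1 v else x.2 v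

theorem meas_mix (R : Set Cl) : Measurable (mix R) := by
  refine measurable_pi_lambda _ fun v => ?_
  unfold mix
  split_ifs <;> fun_prop

theorem map_mix (R : Set Cl) : ((mu ν).prod (mu ν)).map (mix R) = mu ν := by
  refine Measure.eq_infinitePi _ fun s t ht => ?_
  rw [Measure.map_apply (meas_mix R) (MeasurableSet.pi s.countable_toSet fun i _ => ht i)]
  have : mix R ⁻¹' Set.pi s t = (Set.pi (s.filter (· ∈ R)) t) ×ˢ (Set.pi (s.filter (· ∉ R)) t) := by
    ext x
    simp only [Set.mem_preimage, Set.mem_pi, Finset.mem_coe, Set.mem_prod, Finset.mem_filter, mix]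
    constructor
    · intro h
      refine ⟨fun i hi => ?_, fun i hi => ?_⟩
      · have := h i hi.1; rwa [if_pos hi.2] at this
      · have := h i hi.1; rwa [if_neg hi.2] at this
    · intro h i hi
      split_ifs with hR
      · exact h.1 i ⟨hi, hR⟩
      · exact h.2 i ⟨hi, hR⟩
  rw [this, Measure.prod_prod, mu, Measure.infinitePi_pi _ fun i _ => ht i,
    Measure.infinitePi_pi _ fun i _ => ht i, Finset.prod_filter_mul_prod_filter_not]

theorem indep {R : Set Cl} {E E' : Set Om} (hE : MeasurableSet E) (hE' : MeasurableSet E')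
    (h : Det R E) (h' : Det Rᶜ E') : mu ν (E ∩ E') = mu ν E * mu ν E' := by
  have e : mix R ⁻¹' (E ∩ E') = E ×ˢ E' := by
    ext x
    simp only [Set.mem_preimage, Set.mem_inter_iff, Set.mem_prod]
    have e1 : ∀ v ∈ R, mix R x v = x.1 v := fun v hv => if_pos hv
    have e2 : ∀ v ∈ Rᶜ, mix R x v = x.2 v := fun v hv => if_neg hv
    exact ⟨fun hh => ⟨h _ _ e1 hh.1, h' _ _ e2 hh.2⟩,
      fun hh => ⟨h _ _ (fun v hv => (e1 v hv).symm) hh.1, h' _ _ (fun v hv => (e2 v hv).symm) hh.2⟩⟩
  conv_lhs => rw [← map_mix ν R]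
  rw [Measure.map_apply (meas_mix R) (hE.inter hE'), e, Measure.prod_prod]

instance : MeasurableSpace St := ⊤
instance : DiscreteMeasurableSpace St := ⟨fun _ => trivial⟩

theorem meas_tri (s : St) : Measurable fun ω : Om => tri ω s := by
  unfold tri; fun_prop

theorem meas_nxt (s : St) : Measurable fun ω : Om => nxt ω s := by
  unfold nxt turn
  refine Measurable.ite (measurableSet_setOfPred.2 (meas_tri _)) ?_ measurable_const
  refine Measurable.ite (measurableSet_setOfPred.2 (by fun_prop)) measurable_const ?_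
  exact Measurable.ite (measurableSet_setOfPred.2 (by fun_prop)) measurable_const measurable_const

theorem meas_comp {β : Type} [MeasurableSpace β] {f : Om → St → β} (hf : ∀ s, Measurable (f · s))
    {g : Om → St} (hg : Measurable g) : Measurable fun ω => f ω (g ω) := by
  have : Measurable fun x : Om × St => f x.1 x.2 := measurable_from_prod_countable_left hf
  exact this.comp (measurable_id.prodMk hg)

theorem meas_X (s : St) (t : ℕ) : Measurable fun ω : Om => X ω s t := by
  induction t with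
  | zero => exact measurable_const
  | succ t ih => simp only [X_succ]; exact meas_comp (f := fun ω s => nxt ω s) meas_nxt ih

theorem meas_XP (s : St) (t : ℕ) (P : St → Prop) : Measurable fun ω : Om => P (X ω s t) :=
  (measurable_from_top (f := P)).comp (meas_X s t)

noncomputable def dens (P : Om → St → Prop) : ℝ≥0∞ := ∑ π : P4, mu ν {ω | P ω (0, π)}

theorem dens_mono {P Q : Om → St → Prop} (h : ∀ ω s, P ω s → Q ω s) : dens ν P ≤ dens ν Q :=
  Finset.sum_le_sum fun _ _ => measure_mono fun ω hh => h ω _ hh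

theorem dens_or {P Q R : Om → St → Prop} (h : ∀ ω s, P ω s → Q ω s ∨ R ω s) :
    dens ν P ≤ dens ν Q + dens ν R := by
  unfold dens
  rw [← Finset.sum_add_distrib]
  refine Finset.sum_le_sum fun π _ => le_trans (measure_mono ?_) (measure_union_le _ _)
  exact fun ω hh => h ω _ hh

theorem le_dens (P : Om → St → Prop) (π : P4) : mu ν {ω | P ω (0, π)} ≤ dens ν P :=
  Finset.single_le_sum (f := fun π => mu ν {ω | P ω (0, π)}) (fun _ _ => zero_le)
    (Finset.mem_univ π)

theorem dens_le {P : Om → St → Prop} {c : ℝ≥0∞} (h : ∀ π, mu ν {ω | P ω (0, π)} ≤ c) :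
    dens ν P ≤ 24 * c := by
  refine le_trans (Finset.sum_le_card_nsmul _ _ c fun π _ => h π) ?_
  rw [Finset.card_univ, Fintype.card_perm, Fintype.card_fin, nsmul_eq_mul]
  norm_num [Nat.factorial]

theorem dens_ne_top (P : Om → St → Prop) : dens ν P ≠ ⊤ :=
  ne_top_of_le_ne_top (by simp) (dens_le ν (c := 1) fun _ => prob_le_one)

theorem tsum_meas {ι : Type} [Countable ι] (E : ι → Set Om) (hE : ∀ i, MeasurableSet (E i)) :
    ∑' i, mu ν (E i) = ∫⁻ ω, ∑' i, (E i).indicator 1 ω ∂(mu ν) := by
  rw [lintegral_tsum fun i => (measurable_one.indicator (hE i)).aemeasurable]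
  simp only [lintegral_indicator_one (hE _)]

theorem out_bound {ι : Type} [Countable ι] (E : ι → Set Om) (hE : ∀ i, MeasurableSet (E i))
    (P : Set Om) (a : ℕ) (h : ∀ ω ∈ P, ∃ A : Finset ι, a ≤ A.card ∧ ∀ i ∈ A, ω ∈ E i) :
    a * mu ν P ≤ ∑' i, mu ν (E i) := by
  rw [tsum_meas ν E hE]
  refine le_trans ?_ (mul_meas_ge_le_lintegral₀ (Measurable.aemeasurable ?_) a)
  · refine mul_le_mul_right (measure_mono fun ω hω => ?_) _
    obtain ⟨A, h1, h2⟩ := h ω hω
    refine le_trans ?_ (ENNReal.sum_le_tsum A)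
    rw [Finset.sum_congr rfl fun i hi => Set.indicator_of_mem (h2 i hi) _]
    simpa using h1
  · exact Measurable.ennreal_tsum fun i => measurable_one.indicator (hE i)

theorem in_bound {ι : Type} [Countable ι] (E : ι → Set Om) (hE : ∀ i, MeasurableSet (E i))
    (Q : Set Om) (c : ℕ) (hQ : ∀ i, E i ⊆ Q)
    (h : ∀ ω (A : Finset ι), (∀ i ∈ A, ω ∈ E i) → A.card ≤ c) :
    ∑' i, mu ν (E i) ≤ c * mu ν Q := by
  rw [tsum_meas ν E hE]
  refine le_trans (lintegral_mono fun ω => ?_) (lintegral_indicator_const_le Q (c : ℝ≥0∞))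
  by_cases hω : ω ∈ Q
  · rw [Set.indicator_of_mem hω, ENNReal.tsum_eq_iSup_sum]
    refine iSup_le fun A => ?_
    have := h ω (A.filter fun i => ω ∈ E i) fun i hi => (Finset.mem_filter.1 hi).2
    rw [Finset.card_filter] at this
    have e : ∑ i ∈ A, (E i).indicator (1 : Om → ℝ≥0∞) ω =
        ((∑ i ∈ A, if ω ∈ E i then 1 else 0 : ℕ) : ℝ≥0∞) := by
      push_cast
      exact Finset.sum_congr rfl fun i _ => by simp [Set.indicator_apply]
    rw [e]; exact_mod_cast this
  · have : ∀ i, (E i).indicator (1 : Om → ℝ≥0∞) ω = 0 :=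
      fun i => Set.indicator_of_notMem (fun hh => hω (hQ i hh)) _
    simp [this]

/- Mass transport principle. -/
theorem mtp (R : Om → St → St → Prop) (hm : ∀ s s', Measurable fun ω => R ω s s')
    (hc : ∀ v ω s s', R ω ((tr v).act s) ((tr v).act s') ↔ R (fun u => ω ((tr v).φ u)) s s')
    (P Q : Om → St → Prop) (a c : ℕ)
    (hP : ∀ ω s, P ω s → ∃ A : Finset St, a ≤ A.card ∧ ∀ s' ∈ A, R ω s s')
    (hQ : ∀ ω s s', R ω s s' → Q ω s')
    (hb : ∀ ω s' (A : Finset St), (∀ s ∈ A, R ω s s') → A.card ≤ c) :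
    a * dens ν P ≤ c * dens ν Q := by
  have hm' : ∀ s s', MeasurableSet {ω | R ω s s'} := fun s s' => measurableSet_setOfPred.2 (hm s s')
  have key : ∑ π : P4, ∑' s' : St, mu ν {ω | R ω (0, π) s'} =
      ∑ π' : P4, ∑' s : St, mu ν {ω | R ω s (0, π')} := by
    have e1 : ∀ (π π' : P4) (v : Cl),
        mu ν {ω | R ω (0, π) (v, π')} = mu ν {ω | R ω (-v, π) (0, π')} := by
      intro π π' v
      rw [← mu_pre ν (tr v).inj (hm' (-v, π) (0, π'))]
      congr 1; ext ω
      simp only [Set.mem_ofPred_eq, ← hc, tr_act, neg_add_cancel, zero_add]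
    simp only [ENNReal.tsum_prod', tsum_fintype, e1]
    rw [← Summable.tsum_finsetSum fun _ _ => ENNReal.summable,
      ← Summable.tsum_finsetSum fun _ _ => ENNReal.summable, ← (Equiv.neg Cl).tsum_eq]
    refine tsum_congr fun v => ?_
    rw [Finset.sum_comm]; simp
  unfold dens
  rw [Finset.mul_sum, Finset.mul_sum]
  refine le_trans (Finset.sum_le_sum fun π _ => out_bound ν (fun s' => {ω | R ω (0, π) s'})
    (hm' _) _ a fun ω hω => hP ω _ hω) ?_
  rw [key]
  exact Finset.sum_le_sum fun π _ => in_bound ν (fun s => {ω | R ω s (0, π)}) (fun s => hm' s _)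
    _ c (fun s ω hω => hQ ω s _ hω) fun ω A hA => hb ω _ A hA

end Pool.Agent.MP_5f6c2d_pr.h58
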