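import Mathlib.CategoryTheory.Countable
import Mathlib.Tactic.Monotonicity.Lemmas
import Mathlib.Data.Int.Star
import Mathlib.Combinatorics.SimpleGraph.Basic
import Pool.Agent.MP_5f6c2d_pr.h58.Meas

-- ======== part 0: formerly Pool.Agent.MP_5f6c2d_pr.h58.Events
section MrgPart0

/- Bridges, good roots, prisms: deterministic facts, covariance, locality, measurability. -/

set_option autoImplicit false
set_option linter.unusedSectionVars false
open scoped Classical ENNReal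
open MeasureTheory

namespace Pool.Agent.MP_5f6c2d_pr.h58

def Br (ω : Om) (k : ℕ) (s : St) (T : ℕ) : Prop :=
  tri ω s ∧ (X ω s T).2 0 = s.2 0 ∧ (X ω s T).2 3 = s.2 3 ∧ rl 0 3 s (X ω s T) = k ∧
    ∀ t, 1 ≤ t → t ≤ T → 1 ≤ rl 0 3 s (X ω s t) ∧ rl 0 3 s (X ω s t) ≤ k

def Good (k : ℕ) (ω : Om) (s : St) : Prop := ∃ T, Br ω k s T

def Fd (α β : Fin 4) (H A : ℕ) (ω : Om) (s : St) : Prop :=
  ∃ T, Br ω H s T ∧ ∀ t, t ≤ T → -(A : ℤ) ≤ rl α β s (X ω s t)

def BrTo (k : ℕ) (ω : Om) (s s' : St) : Prop := ∃ T, Br ω k s T ∧ X ω s T = s'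

theorem Br.next {ω : Om} {k : ℕ} {s : St} {T : ℕ} (h : Br ω k s T) :
    rl 0 3 s (X ω s (T + 1)) = k + 1 := by
  obtain ⟨-, h0, h3, h4, -⟩ := h
  have := L_flip_own (X ω s T)
  rw [h0, h3] at this
  unfold rl at *
  rw [L_X_succ]; omega

theorem Br.le {ω : Om} {k : ℕ} {s : St} {T : ℕ} (h : Br ω k s T) {t : ℕ}
    (ht : ∀ u, 1 ≤ u → u ≤ t → rl 0 3 s (X ω s u) ≤ k) : t ≤ T := by
  by_contra hh
  have := ht (T + 1) (by omega) (by omega)
  have := h.next
  omega

theorem Br.uniq {ω : Om} {k : ℕ} {s : St} {T T' : ℕ} (h : Br ω k s T) (h' : Br ω k s T') :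
    T = T' :=
  le_antisymm (h'.le fun u a c => (h.2.2.2.2 u a c).2) (h.le fun u a c => (h'.2.2.2.2 u a c).2)

theorem br_intro {ω : Om} {k : ℕ} {s : St} {T : ℕ} (h : tri ω s)
    (h1 : (k : ℤ) + 1 ≤ rl 0 3 s (X ω s T)) (h2 : ∀ t, 1 ≤ t → t ≤ T → 1 ≤ rl 0 3 s (X ω s t)) :
    ∃ T', T' < T ∧ Br ω k s T' := by
  have ex : ∃ t, (k : ℤ) + 1 ≤ rl 0 3 s (X ω s t) := ⟨T, h1⟩
  have e0 := Nat.find_spec ex
  have e1 : Nat.find ex ≤ T := Nat.find_min' ex h1
  have e2 : ∀ t, t < Nat.find ex → rl 0 3 s (X ω s t) ≤ k := fun t ht => by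
    have := Nat.find_min ex ht; omega
  obtain ⟨T', e⟩ : ∃ T', Nat.find ex = T' + 1 := by
    refine ⟨Nat.find ex - 1, ?_⟩
    rcases Nat.eq_zero_or_pos (Nat.find ex) with e | e
    · rw [e] at e0; simp [rl] at e0; omega
    · omega
  rw [e] at e0 e1 e2
  have e3 := e2 T' (by omega)
  have e4 := L_step (s.2 0) (s.2 3) ω s T'
  have e5 := L_up (i := s.2 0) (j := s.2 3) (ω := ω) (s := s) (t := T') (by unfold rl at *; omega)
  exact ⟨T', by omega, h, e5.1, e5.2, by unfold rl at *; omega,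
    fun t a c => ⟨h2 t a (by omega), e2 t (by omega)⟩⟩

theorem Good.mono {ω : Om} {k k' : ℕ} {s : St} (h : Good k ω s) (hk : k' ≤ k) : Good k' ω s := by
  obtain ⟨T, h⟩ := h
  obtain ⟨T', -, h'⟩ := br_intro (k := k') (T := T + 1) h.1 (by rw [h.next]; omega) fun t a c => by
    rcases Nat.lt_or_ge T t with e | e
    · rw [show t = T + 1 by omega, h.next]; omega
    · exact (h.2.2.2.2 t a e).1
  exact ⟨T', h'⟩

/- Last crossing of a level. -/
theorem last_cross {ω : Om} {s : St} (h : tri ω s) {i j : Fin 4} {t1 t2 : ℕ} {m : ℤ} {k : ℕ}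
    (h12 : t1 ≤ t2) (h1 : L i j (X ω s t1) ≤ m) (h2 : m + k + 1 ≤ L i j (X ω s t2)) :
    ∃ t T, t1 ≤ t ∧ t + T < t2 ∧ L i j (X ω s t) = m ∧ (X ω s t).2 0 = i ∧ (X ω s t).2 3 = j ∧
      Br ω k (X ω s t) T := by
  let P : ℕ → Prop := fun t => L i j (X ω s t) ≤ m
  have e1 : t1 ≤ Nat.findGreatest P t2 := Nat.le_findGreatest h12 h1
  have e2 : P (Nat.findGreatest P t2) := Nat.findGreatest_spec h12 h1
  have e3 : ∀ u, Nat.findGreatest P t2 < u → u ≤ t2 → ¬ P u :=
    fun u a c => Nat.findGreatest_is_greatest a c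
  have e4 : Nat.findGreatest P t2 ≤ t2 := Nat.findGreatest_le t2
  generalize Nat.findGreatest P t2 = t at *
  simp only [P] at e2 e3
  have e5 : t < t2 := by
    rcases Nat.lt_or_ge t t2 with e | e
    · exact e
    · rw [show t = t2 by omega] at e2; omega
  have e6 := e3 (t + 1) (by omega) (by omega)
  have e7 := L_step i j ω s t
  have e8 := L_up (i := i) (j := j) (ω := ω) (s := s) (t := t) (by omega)
  obtain ⟨T, a, c⟩ := br_intro (ω := ω) (k := k) (s := X ω s t) (T := t2 - t) (tri_X h t)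
    (by simp only [rl, X_add, e8.1, e8.2, show t + (t2 - t) = t2 by omega]; omega)
    (fun u a c => by
      have := e3 (t + u) (by omega) (by omega)
      simp only [rl, X_add, e8.1, e8.2]; omega)
  exact ⟨t, T, e1, by omega, by omega, e8.1, e8.2, c⟩

/- Covariance. -/
theorem Sym.Br_act (g : Sym) (ω : Om) (k : ℕ) (s : St) (T : ℕ) :
    Br ω k (g.act s) T ↔ Br (fun v => ω (g.φ v)) k s T := by
  simp only [Br, g.tri_act, g.X_act, g.rl_act, g.act_snd, EmbeddingLike.apply_eq_iff_eq]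

theorem Sym.Good_act (g : Sym) (ω : Om) (k : ℕ) (s : St) :
    Good k ω (g.act s) ↔ Good k (fun v => ω (g.φ v)) s := by
  simp only [Good, g.Br_act]

theorem Sym.Fd_act (g : Sym) (α β : Fin 4) (H A : ℕ) (ω : Om) (s : St) :
    Fd α β H A ω (g.act s) ↔ Fd α β H A (fun v => ω (g.φ v)) s := by
  simp only [Fd, g.Br_act, g.X_act, g.rl_act]

theorem Sym.BrTo_act (g : Sym) (k : ℕ) (ω : Om) (s s' : St) :
    BrTo k ω (g.act s) (g.act s') ↔ BrTo k (fun v => ω (g.φ v)) s s' := by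
  simp only [BrTo, g.Br_act, g.X_act, g.act_inj.eq_iff]

/- Locality. -/
def slab (s : St) (lo hi : ℤ) : Set Cl :=
  {v | L (s.2 0) (s.2 3) s + lo ≤ be (s.2 0) (s.2 3) v ∧
    be (s.2 0) (s.2 3) v ≤ L (s.2 0) (s.2 3) s + hi}

theorem Br.congr {ω ω' : Om} {k : ℕ} {s : St} {T : ℕ} (h : Br ω k s T)
    (e : ∀ v ∈ slab s 1 (k + 1), ω v = ω' v) :
    Br ω' k s T ∧ ∀ t, t ≤ T → X ω' s t = X ω s t := by
  have e1 : ∀ t, t ≤ T → X ω' s t = X ω s t :=
    X_congr (i := s.2 0) (j := s.2 3) (fun v a c => e v ⟨a, c⟩) fun t a c => by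
      have := h.2.2.2.2 t a c
      unfold rl at this; omega
  have e2 : ∀ c : Fin 4, c ≠ 0 → ω (cell s c) = ω' (cell s c) := fun c hc => e _ (by
    have := L_wall s c hc
    constructor <;> omega)
  refine ⟨⟨?_, ?_, ?_, ?_, fun t a c => ?_⟩, e1⟩
  · have := h.1
    unfold tri at *
    rwa [← e2 1 (by decide), ← e2 2 (by decide), ← e2 3 (by decide)]
  · rw [e1 T le_rfl]; exact h.2.1
  · rw [e1 T le_rfl]; exact h.2.2.1
  · rw [e1 T le_rfl]; exact h.2.2.2.1
  · rw [e1 t c]; exact h.2.2.2.2 t a c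

theorem det_Fd (α β : Fin 4) (H A : ℕ) (s : St) :
    Det (slab s 1 (H + 1)) {ω | Fd α β H A ω s} := by
  rintro ω ω' e ⟨T, h1, h2⟩
  obtain ⟨a, c⟩ := h1.congr e
  exact ⟨T, a, fun t ht => by rw [c t ht]; exact h2 t ht⟩

theorem det_BrTo (k : ℕ) (s s' : St) : Det (slab s 1 (k + 1)) {ω | BrTo k ω s s'} := by
  rintro ω ω' e ⟨T, h1, h2⟩
  obtain ⟨a, c⟩ := h1.congr e
  exact ⟨T, a, by rw [c T le_rfl]; exact h2⟩

/- Measurability. -/
theorem meas_Br (k : ℕ) (s : St) (T : ℕ) : Measurable fun ω => Br ω k s T :=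
  (meas_tri s).and <| (meas_XP s T fun x => x.2 0 = s.2 0).and <|
    (meas_XP s T fun x => x.2 3 = s.2 3).and <| (meas_XP s T fun x => rl 0 3 s x = k).and <|
    Measurable.forall fun t => measurable_const.imp <| measurable_const.imp <|
      meas_XP s t fun x => 1 ≤ rl 0 3 s x ∧ rl 0 3 s x ≤ k

theorem meas_Good (k : ℕ) (s : St) : Measurable fun ω => Good k ω s :=
  Measurable.exists fun T => meas_Br k s T

theorem meas_Fd (α β : Fin 4) (H A : ℕ) (s : St) : Measurable fun ω => Fd α β H A ω s :=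
  Measurable.exists fun T => (meas_Br H s T).and <| Measurable.forall fun t =>
    measurable_const.imp <| meas_XP s t fun x => -(A : ℤ) ≤ rl α β s x

theorem meas_BrTo (k : ℕ) (s s' : St) : Measurable fun ω => BrTo k ω s s' :=
  Measurable.exists fun T => (meas_Br k s T).and <| meas_XP s T fun x => x = s'

/- Prisms. -/
def up (s : St) : St := (s.1 + w (s.2 0), s.2)

theorem up_eq (s : St) : up s = (tr (w (s.2 0))).act s := (tr_act _ _).symm

theorem Sym.up_act (g : Sym) (s : St) : up (g.act s) = g.act (up s) := by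
  simp [up, Sym.act, g.hw]

theorem L_up_own (s : St) : L (s.2 0) (s.2 3) (up s) = L (s.2 0) (s.2 3) s + 1 := by
  have := p_ne s (show (3 : Fin 4) ≠ 0 by decide)
  rw [up_eq, L_tr, be_w]; simp [this]

theorem cell_up (s : St) (k : Fin 4) : cell (up s) k = cell s k + w (s.2 0) := by
  rw [up_eq, Sym.cell_act]; rfl

def Half (α β : Fin 4) (H A : ℕ) (ω : Om) (s : St) : Prop :=
  (∀ k : Fin 4, k ≠ 0 → ω (cell (up s) k) = ω (cell s k)) ∧ Fd α β H A ω (up s)

theorem Sym.Half_act (g : Sym) (α β : Fin 4) (H A : ℕ) (ω : Om) (s : St) :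
    Half α β H A ω (g.act s) ↔ Half α β H A (fun v => ω (g.φ v)) s := by
  simp only [Half, g.up_act, g.cell_act, g.Fd_act]

theorem meas_Half (α β : Fin 4) (H A : ℕ) (s : St) : Measurable fun ω => Half α β H A ω s :=
  Measurable.and (by fun_prop) (meas_Fd _ _ _ _ _)

theorem Half.tri {α β : Fin 4} {H A : ℕ} {ω : Om} {s : St} (h : Half α β H A ω s) : tri ω s := by
  obtain ⟨h1, T, h2, -⟩ := h
  have := h2.1
  unfold h58.tri at *
  rwa [h1 1 (by decide), h1 2 (by decide), h1 3 (by decide)] at this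

theorem det_Half (α β : Fin 4) (H A : ℕ) (s : St) :
    Det (slab s 1 (H + 2)) {ω | Half α β H A ω s} := by
  rintro ω ω' e ⟨h1, h2⟩
  have e0 := L_up_own s
  refine ⟨fun k hk => ?_, det_Fd α β H A (up s) ω ω' (fun v hv => e v ?_) h2⟩
  · have a := L_wall s k hk
    have c : be (s.2 0) (s.2 3) (cell (up s) k) = L (s.2 0) (s.2 3) (up s) + 1 :=
      L_wall (up s) k hk
    rw [← e _ (by constructor <;> omega), ← e _ (by constructor <;> omega)]
    exact h1 k hk
  · have a : L (s.2 0) (s.2 3) (up s) + 1 ≤ be (s.2 0) (s.2 3) v := hv.1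
    have c : be (s.2 0) (s.2 3) v ≤ L (s.2 0) (s.2 3) (up s) + (H + 1) := hv.2
    constructor <;> omega

def pr (s : St) : St := rot (rot (rot (flip s)))

theorem prism {ω : Om} {s : St} (ht : tri ω s)
    (h : ∀ k : Fin 4, k ≠ 0 → ω (cell (up s) k) = ω (cell s k)) :
    X ω s 3 = up s ∧ ∀ t, 1 ≤ t → t ≤ 3 → rl 0 3 s (X ω s t) = 1 := by
  have ws := wsum s.2
  have c1 : cell (flip s) 0 = cell (up s) 3 := by
    simp only [up, cell_0, cell_3, flip_fst]
  have c2 : cell (flip (pr s)) 0 = cell (up s) 2 := by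
    simp only [pr, up, cell_0, cell_2, flip_fst, rot_fst, rot_0, rot_1, rot_2, rot_3, flip_0,
      flip_1, flip_2, flip_3]; abel
  have c3 : cell (flip (pr (pr s))) 0 = cell (up s) 1 := by
    simp only [pr, up, cell_0, cell_1, flip_fst, rot_fst, rot_0, rot_1, rot_2, rot_3, flip_0,
      flip_1, flip_2, flip_3]
    linear_combination (exp := 1) ws
  have e1 : X ω s 1 = pr s := by
    rw [X_succ, X_zero]
    exact turn_eq3 ((tri_flip _ _).2 ht) (by rw [c1, h 3 (by decide), cell_flip3])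
  have e2 : X ω s 2 = pr (pr s) := by
    have t1 := tri_X ht 1
    rw [X_succ, e1]; rw [e1] at t1
    exact turn_eq3 ((tri_flip _ _).2 t1) (by rw [c2, h 2 (by decide)]; simp [pr])
  have e3 : X ω s 3 = pr (pr (pr s)) := by
    have t1 := tri_X ht 2
    rw [X_succ, e2]; rw [e2] at t1
    exact turn_eq3 ((tri_flip _ _).2 t1) (by rw [c3, h 1 (by decide)]; simp [pr])
  have e4 : pr (pr (pr s)) = up s := by
    apply St.ext4
    · simp only [pr, up, flip_fst, rot_fst, rot_0, rot_1, rot_2, rot_3, flip_0,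
        flip_1, flip_2, flip_3]
      linear_combination (exp := 1) (2 : ℤ) • ws
    all_goals simp [pr, up]
  have l1 : L (s.2 0) (s.2 3) (pr s) = L (s.2 0) (s.2 3) s + 1 := by
    simp only [pr, L_rot, L_flip_own]
  have l2 : L (s.2 0) (s.2 3) (pr (pr s)) = L (s.2 0) (s.2 3) s + 1 := by
    rw [pr, L_rot, L_rot, L_rot, L_flip, l1]; simp [pr]
  refine ⟨e3.trans e4, fun t a c => ?_⟩
  have l3 := L_up_own s
  interval_cases t <;> simp only [rl, e1, e2, e3, e4] <;> omega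

theorem Half.elim {α β : Fin 4} {H A : ℕ} {ω : Om} {s : St} (h : Half α β H A ω s) {t : ℕ}
    (ht : ∀ u, 1 ≤ u → u ≤ t → rl 0 3 s (X ω s u) ≤ H + 1) :
    (1 ≤ t → 1 ≤ rl 0 3 s (X ω s t)) ∧ (4 ≤ t → 2 ≤ rl 0 3 s (X ω s t)) ∧
      -((A : ℤ) + 3) ≤ rl α β s (X ω s t) := by
  obtain ⟨p1, p2⟩ := prism h.tri h.1
  obtain ⟨T, h1, h2⟩ := h.2
  have s0 := L_step (s.2 α) (s.2 β) ω s 0
  have s1 := L_step (s.2 α) (s.2 β) ω s 1
  have s2 := L_step (s.2 α) (s.2 β) ω s 2
  have l3 := L_up_own s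
  have e : ∀ u, X ω (up s) u = X ω s (3 + u) := fun u => by rw [← p1, X_add]
  have r1 : ∀ x, rl 0 3 (up s) x = rl 0 3 s x - 1 := fun x => by
    change L (s.2 0) (s.2 3) x - L (s.2 0) (s.2 3) (up s) = _
    unfold rl; omega
  rcases Nat.lt_or_ge t 4 with a | a
  · refine ⟨fun c => (p2 t c (by omega)).ge, fun c => by omega, ?_⟩
    simp only [rl, X_zero, zero_add, Nat.reduceAdd] at *
    interval_cases t <;> (try simp only [X_zero]) <;> omega
  · obtain ⟨u, rfl⟩ : ∃ u, t = 3 + u := ⟨t - 3, by omega⟩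
    have hu : u ≤ T := h1.le fun u' a c => by
      have := ht (3 + u') (by omega) (by omega)
      rw [e, r1]; omega
    have a1 := (h1.2.2.2.2 u (by omega) hu).1
    have a2 := h2 u hu
    rw [e, r1] at a1
    rw [e] at a2
    change -(A : ℤ) ≤ L (s.2 α) (s.2 β) _ - L (s.2 α) (s.2 β) (up s) at a2
    refine ⟨fun _ => by omega, fun _ => by omega, ?_⟩
    simp only [rl, X_zero, zero_add, Nat.reduceAdd, p1] at *
    omega

end Pool.Agent.MP_5f6c2d_pr.h58

end MrgPart0

-- ======== part 1: formerly Pool.Agent.MP_5f6c2d_pr.h58.Turn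
section MrgPart1

/- Reflection and gluing: probabilities of half paths, U-turns and linked pairs of U-turns. -/

set_option autoImplicit false
set_option linter.unusedSectionVars false
open scoped Classical ENNReal
open MeasureTheory

namespace Pool.Agent.MP_5f6c2d_pr.h58

variable (ν : Measure (Fin 3)) [IsProbabilityMeasure ν]

noncomputable def kap : ℝ≥0∞ := ν {0} * (ν {1} * ν {2})

abbrev T3 := Fin 3 × Fin 3 × Fin 3

def Pat (x : T3) (s : St) : Set Om :=
  {ω | ω (cell s 1) = x.1} ∩ ({ω | ω (cell s 2) = x.2.1} ∩ {ω | ω (cell s 3) = x.2.2})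

def Dis (x : T3) : Prop := x.1 ≠ x.2.1 ∧ x.1 ≠ x.2.2 ∧ x.2.1 ≠ x.2.2

theorem ms_cell (v : Cl) (a : Fin 3) : MeasurableSet {ω : Om | ω v = a} :=
  measurableSet_setOfPred.2 (by fun_prop)

theorem mu_cell (v : Cl) (a : Fin 3) : mu ν {ω : Om | ω v = a} = ν {a} :=
  (measurePreserving_eval_infinitePi (fun _ : Cl => ν) v).measure_preimage
    (s := {a}) (MeasurableSet.singleton a).nullMeasurableSet

theorem det_cell {R : Set Cl} {v : Cl} (h : v ∈ R) (a : Fin 3) : Det R {ω : Om | ω v = a} :=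
  fun _ _ e hh => (e v h).symm.trans hh

theorem ms_Pat (x : T3) (s : St) : MeasurableSet (Pat x s) :=
  (ms_cell _ _).inter ((ms_cell _ _).inter (ms_cell _ _))

theorem cell_ne (s : St) : cell s 1 ≠ cell s 2 ∧ cell s 1 ≠ cell s 3 ∧ cell s 2 ≠ cell s 3 := by
  refine ⟨fun e => ?_, fun e => ?_, fun e => ?_⟩
  · have := congrArg (be (s.2 1) (s.2 2)) e
    simp [cell_1, cell_2, be_add, be_w] at this
  · have := congrArg (be (s.2 1) (s.2 0)) e
    simp [cell_1, cell_3', be_add, be_w] at this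
  · have := congrArg (be (s.2 1) (s.2 2)) e
    simp [cell_2, cell_3', be_add, be_w] at this

theorem mu_Pat {x : T3} (hx : Dis x) (s : St) : mu ν (Pat x s) = kap ν := by
  obtain ⟨n1, n2, n3⟩ := cell_ne s
  unfold Pat
  rw [indep ν (R := {cell s 1}) (ms_cell _ _) ((ms_cell _ _).inter (ms_cell _ _))
      (det_cell (Set.mem_singleton _) _) (Det.inter (det_cell (Set.mem_compl_singleton_iff.2 n1.symm) _)
        (det_cell (Set.mem_compl_singleton_iff.2 n2.symm) _)),
    indep ν (R := {cell s 2}) (ms_cell _ _) (ms_cell _ _) (det_cell (Set.mem_singleton _) _)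
      (det_cell (Set.mem_compl_singleton_iff.2 n3.symm) _), mu_cell, mu_cell, mu_cell]
  obtain ⟨a, c, d⟩ := x
  unfold kap Dis at *
  fin_cases a <;> fin_cases c <;> fin_cases d <;> simp at hx ⊢ <;> ring

theorem det_Pat (x : T3) (s : St) : Det (slab s 1 1) (Pat x s) := by
  have : ∀ k : Fin 4, k ≠ 0 → cell s k ∈ slab s 1 1 := fun k hk => by
    have := L_wall s k hk
    constructor <;> omega
  exact (det_cell (this 1 (by decide)) _).inter
    ((det_cell (this 2 (by decide)) _).inter (det_cell (this 3 (by decide)) _))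

def pat (ω : Om) (s : St) : T3 := (ω (cell s 1), ω (cell s 2), ω (cell s 3))

theorem mem_Pat {ω : Om} {x : T3} {s : St} : ω ∈ Pat x s ↔ pat ω s = x := by
  obtain ⟨a, c, d⟩ := x
  simp [Pat, pat]

theorem card_T3 : Fintype.card T3 = 27 := by simp

theorem mu_tri (s : St) : mu ν {ω | tri ω s} ≤ 27 * kap ν := by
  have : {ω | tri ω s} ⊆ ⋃ x ∈ Finset.univ.filter Dis, Pat x s := fun ω h => by
    simp only [Set.mem_iUnion]
    exact ⟨pat ω s, Finset.mem_filter.2 ⟨Finset.mem_univ _, h⟩, mem_Pat.2 rfl⟩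
  refine (measure_mono this).trans ((measure_biUnion_finset_le _ _).trans ?_)
  refine (Finset.sum_le_card_nsmul _ _ (kap ν) fun x hx =>
    (mu_Pat ν (Finset.mem_filter.1 hx).2 s).le).trans ?_
  rw [nsmul_eq_mul]
  gcongr
  exact_mod_cast (Finset.card_filter_le _ _).trans card_T3.le

theorem disj_le {ι : Type} [Countable ι] (E : ι → Set Om) (hE : ∀ i, MeasurableSet (E i))
    (Q : Set Om) (hQ : ∀ i, E i ⊆ Q) (h : ∀ ω i j, ω ∈ E i → ω ∈ E j → i = j) :
    ∑' i, mu ν (E i) ≤ mu ν Q := by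
  have := in_bound ν E hE Q 1 hQ fun ω A hA =>
    Finset.card_le_one.2 fun i hi j hj => h ω i j (hA i hi) (hA j hj)
  simpa using this

variable (α β : Fin 4) (H A : ℕ)

def FS (s : St) : Set Om := {ω | Fd α β H A ω s}
def HS (s : St) : Set Om := {ω | Half α β H A ω s}
def ES (x : T3) (s : St) : Set Om := FS α β H A s ∩ Pat x s

theorem ms_FS (s : St) : MeasurableSet (FS α β H A s) :=
  measurableSet_setOfPred.2 (meas_Fd _ _ _ _ _)
theorem ms_HS (s : St) : MeasurableSet (HS α β H A s) :=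
  measurableSet_setOfPred.2 (meas_Half _ _ _ _ _)
theorem ms_ES (x : T3) (s : St) : MeasurableSet (ES α β H A x s) :=
  (ms_FS _ _ _ _ _).inter (ms_Pat _ _)

theorem det_ES (x : T3) (s : St) : Det (slab s 1 (H + 1)) (ES α β H A x s) :=
  (det_Fd _ _ _ _ _).inter ((det_Pat x s).mono fun v hv => ⟨hv.1, by have := hv.2; omega⟩)

theorem ES_dis {x : T3} {s : St} {ω : Om} (h : ω ∈ ES α β H A x s) : Dis x := by
  obtain ⟨⟨T, h1, -⟩, h2⟩ := h
  rw [← mem_Pat.1 h2]; exact h1.1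

theorem mu_FS_act (g : Sym) (s : St) : mu ν (FS α β H A (g.act s)) = mu ν (FS α β H A s) := by
  rw [FS, FS, ← mu_pre ν g.inj (ms_FS α β H A s)]
  simp only [g.Fd_act]

theorem mu_ES_act (g : Sym) (x : T3) (s : St) :
    mu ν (ES α β H A x (g.act s)) = mu ν (ES α β H A x s) := by
  have := mu_pre ν (E := fun ω => ω ∈ ES α β H A x s) g.inj (ms_ES α β H A x s)
  refine Eq.trans ?_ this
  congr 1; ext ω
  simp only [ES, FS, Pat, Set.mem_inter_iff, Set.mem_ofPred_eq, g.Fd_act, g.cell_act]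

def mir (s : St) : Sym :=
  rf (s.2 0) (s.2 3) (p_ne s (by decide)) (L (s.2 0) (s.2 3) s + 1)

theorem mir_act (s : St) : (mir s).act s = flip s := by
  refine Prod.ext ?_ ?_
  · simp [mir, rf, Sym.act, flip, L]; abel
  · simp only [mir, rf, Sym.act, flip]
    rw [Equiv.mul_swap_eq_swap_mul]

theorem mu_FS_tr (v : Cl) (π : P4) : mu ν (FS α β H A (v, π)) = mu ν (FS α β H A (0, π)) := by
  rw [← mu_FS_act ν α β H A (tr v) (0, π), tr_act, zero_add]

theorem mu_FS_up (s : St) : mu ν (FS α β H A (up s)) = mu ν (FS α β H A (0, s.2)) :=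
  mu_FS_tr _ _ _ _ _ _ _

theorem mu_FS_upflip (s : St) :
    mu ν (FS α β H A (up (flip s))) = mu ν (FS α β H A (0, s.2)) := by
  rw [← mir_act, Sym.up_act, mu_FS_act, mu_FS_up]

theorem slab_up {s : St} {lo hi : ℤ} {v : Cl} (h : v ∈ slab (up s) lo hi) :
    v ∈ slab s (lo + 1) (hi + 1) := by
  have e0 := L_up_own s
  have a : L (s.2 0) (s.2 3) (up s) + lo ≤ be (s.2 0) (s.2 3) v := h.1
  have c : be (s.2 0) (s.2 3) v ≤ L (s.2 0) (s.2 3) (up s) + hi := h.2
  constructor <;> omega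

theorem slab_flip {s : St} {lo hi : ℤ} {v : Cl} (h : v ∈ slab (flip s) lo hi) :
    v ∈ slab s (2 - hi) (2 - lo) := by
  have e0 := L_flip_own s
  have e1 := L_anti (p_ne s (show (0 : Fin 4) ≠ 3 by decide)) (flip s)
  obtain ⟨a, c⟩ := h
  rw [flip_0, flip_3] at a c
  have : be (s.2 3) (s.2 0) v = - be (s.2 0) (s.2 3) v := by unfold be; ring
  constructor <;> omega

theorem mu_HS_le (s : St) : mu ν (HS α β H A s) ≤ kap ν * mu ν (FS α β H A (up s)) := by
  have h1 : HS α β H A s ⊆ ⋃ x, Pat x s ∩ ES α β H A x (up s) := fun ω h => by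
    refine Set.mem_iUnion.2 ⟨pat ω s, mem_Pat.2 rfl, h.2, mem_Pat.2 ?_⟩
    simp only [pat, h.1 1 (by decide), h.1 2 (by decide), h.1 3 (by decide)]
  refine (measure_mono h1).trans ((measure_iUnion_le _).trans ?_)
  refine le_trans (ENNReal.tsum_le_tsum (g := fun x => kap ν * mu ν (ES α β H A x (up s)))
    fun x => ?_) ?_
  · by_cases hx : Dis x
    · rw [indep ν (R := slab s 1 1) (ms_Pat _ _) (ms_ES _ _ _ _ _ _) (det_Pat _ _)
        ((det_ES _ _ _ _ _ _).mono fun v hv hh => by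
          have := (slab_up hv).1; have := hh.2; omega), mu_Pat ν hx]
    · rw [Set.eq_empty_of_forall_notMem (s := ES α β H A x (up s))
        fun ω h => hx (ES_dis _ _ _ _ h)]
      simp
  · rw [ENNReal.tsum_mul_left]
    gcongr
    exact disj_le ν _ (fun x => ms_ES _ _ _ _ _ _) _ (fun x => Set.inter_subset_left)
      fun ω x y h1 h2 => (mem_Pat.1 h1.2).symm.trans (mem_Pat.1 h2.2)

theorem mu_U_ge (s : St) : kap ν * (mu ν (FS α β H A (0, s.2))) ^ 2 ≤
    729 * mu ν (HS α β H A s ∩ HS α β H A (flip s)) := by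
  obtain ⟨x, -, hx⟩ := Finset.exists_max_image Finset.univ
    (fun x => mu ν (ES α β H A x (up s))) Finset.univ_nonempty
  have h1 : mu ν (FS α β H A (0, s.2)) ≤ 27 * mu ν (ES α β H A x (up s)) := by
    rw [← mu_FS_up]
    have : FS α β H A (up s) ⊆ ⋃ y ∈ (Finset.univ : Finset T3), ES α β H A y (up s) :=
      fun ω h => by
        simp only [Set.mem_iUnion]
        exact ⟨pat ω (up s), Finset.mem_univ _, h, mem_Pat.2 rfl⟩
    refine (measure_mono this).trans ((measure_biUnion_finset_le _ _).trans ?_)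
    refine (Finset.sum_le_card_nsmul _ _ _ hx).trans ?_
    rw [nsmul_eq_mul, Finset.card_univ, card_T3]; rfl
  by_cases hd : Dis x
  swap
  · rw [Set.eq_empty_of_forall_notMem (s := ES α β H A x (up s))
      fun ω h => hd (ES_dis _ _ _ _ h)] at h1
    simp only [measure_empty, mul_zero, nonpos_iff_eq_zero] at h1
    simp [h1]
  have h2 : Pat x s ∩ (ES α β H A x (up s) ∩ ES α β H A x (up (flip s))) ⊆
      HS α β H A s ∩ HS α β H A (flip s) := by
    rintro ω ⟨⟨a1, a2, a3⟩, ⟨b0, b1, b2, b3⟩, c0, c1, c2, c3⟩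
    refine ⟨⟨fun k hk => ?_, b0⟩, fun k hk => ?_, c0⟩
    · fin_cases k
      exacts [absurd rfl hk, b1.trans a1.symm, b2.trans a2.symm, b3.trans a3.symm]
    · fin_cases k
      exacts [absurd rfl hk, c1.trans (by simpa using a1.symm), c2.trans (by simpa using a2.symm),
        c3.trans (by simpa using a3.symm)]
  have d1 := det_ES α β H A x (up s)
  have d2 := det_ES α β H A x (up (flip s))
  have h3 := measure_mono (μ := mu ν) h2
  rw [indep ν (R := slab s 1 1) (ms_Pat _ _) ((ms_ES _ _ _ _ _ _).inter (ms_ES _ _ _ _ _ _))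
      (det_Pat _ _) (Det.inter (d1.mono fun v hv hh => by
          have := (slab_up hv).1; have := hh.2; omega) (d2.mono fun v hv hh => by
          have := (slab_flip (slab_up hv)).2; have := hh.1; omega)),
    indep ν (ms_ES _ _ _ _ _ _) (ms_ES _ _ _ _ _ _) d1 (d2.mono fun v hv hh => by
          have := (slab_flip (slab_up hv)).2; have := (slab_up hh).1; omega),
    mu_Pat ν hd, ← mir_act, Sym.up_act, mu_ES_act, mir_act] at h3
  calc _ ≤ kap ν * (27 * mu ν (ES α β H A x (up s))) ^ 2 := by gcongr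
    _ = 729 * (kap ν * (mu ν (ES α β H A x (up s)) * mu ν (ES α β H A x (up s)))) := by ring
    _ ≤ _ := by gcongr

def Link (k : ℕ) (ω : Om) (s : St) : Prop :=
  Half α β H A ω (flip s) ∧
    ∃ v : Cl, BrTo k ω (up s) (v, s.2) ∧ Half α β H A ω (v - w (s.2 3), s.2)

theorem meas_Link (k : ℕ) (s : St) : Measurable fun ω => Link α β H A k ω s :=
  (meas_Half _ _ _ _ _).and <| Measurable.exists fun _ =>
    (meas_BrTo _ _ _).and (meas_Half _ _ _ _ _)

theorem Link_tr (k : ℕ) (v : Cl) (ω : Om) (s : St) :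
    Link α β H A k ω ((tr v).act s) ↔ Link α β H A k (fun u => ω ((tr v).φ u)) s := by
  unfold Link
  rw [Sym.flip_act, Sym.Half_act, Sym.up_act]
  refine and_congr_right fun _ => ?_
  rw [← (Equiv.addRight v).exists_congr_right]
  refine exists_congr fun u => ?_
  rw [← Sym.BrTo_act, ← Sym.Half_act]
  simp only [tr_act, Equiv.coe_addRight, add_sub_right_comm]

theorem mu_Good_tr (k : ℕ) (v : Cl) (π : P4) :
    mu ν {ω | Good k ω (v, π)} ≤ dens ν (Good k) := by
  refine le_trans (le_of_eq ?_) (le_dens ν (Good k) π)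
  rw [← mu_pre ν (tr v).inj (measurableSet_setOfPred.2 (meas_Good k (0, π)))]
  simp only [← Sym.Good_act, tr_act, zero_add]

theorem mu_Link (k : ℕ) (s : St) : mu ν {ω | Link α β H A k ω s} ≤
    (kap ν * mu ν (FS α β H A (0, s.2))) ^ 2 * dens ν (Good k) := by
  have h1 : {ω | Link α β H A k ω s} ⊆ ⋃ v : Cl, HS α β H A (flip s) ∩
      ({ω | BrTo k ω (up s) (v, s.2)} ∩ HS α β H A (v - w (s.2 3), s.2)) := by
    rintro ω ⟨a, v, c⟩
    exact Set.mem_iUnion.2 ⟨v, a, c⟩
  have mb : ∀ v : Cl, MeasurableSet {ω | BrTo k ω (up s) (v, s.2)} :=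
    fun v => measurableSet_setOfPred.2 (meas_BrTo _ _ _)
  refine (measure_mono h1).trans ((measure_iUnion_le _).trans ?_)
  refine le_trans (ENNReal.tsum_le_tsum (g := fun v => (kap ν * mu ν (FS α β H A (0, s.2))) ^ 2 *
    mu ν {ω | BrTo k ω (up s) (v, s.2)}) fun v => ?_) ?_
  · by_cases hv : L (s.2 0) (s.2 3) (v - w (s.2 3), s.2) = L (s.2 0) (s.2 3) s + k + 2
    · have d1 := det_Half α β H A (flip s)
      have d2 := det_BrTo k (up s) (v, s.2)
      have d3 := det_Half α β H A (v - w (s.2 3), s.2)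
      have e3 : ∀ u ∈ slab (v - w (s.2 3), s.2) 1 (H + 2),
          L (s.2 0) (s.2 3) s + k + 3 ≤ be (s.2 0) (s.2 3) u := fun u hu => by
        have : L (s.2 0) (s.2 3) (v - w (s.2 3), s.2) + 1 ≤ be (s.2 0) (s.2 3) u := hu.1
        omega
      rw [indep ν (E := HS α β H A (flip s)) (ms_HS _ _ _ _ _) ((mb v).inter (ms_HS _ _ _ _ _)) d1
        (Det.inter (d2.mono fun u hu hh => by
          have := (slab_up hu).1; have := (slab_flip hh).2; omega)
         (d3.mono fun u hu hh => by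
          have := e3 u hu; have := (slab_flip hh).2; omega)),
        indep ν (E' := HS α β H A (v - w (s.2 3), s.2)) (mb v) (ms_HS _ _ _ _ _) d2
          (d3.mono fun u hu hh => by
            have := e3 u hu; have := (slab_up hh).2; omega)]
      have a1 := mu_HS_le ν α β H A (flip s)
      have a2 := mu_HS_le ν α β H A (v - w (s.2 3), s.2)
      rw [mu_FS_upflip] at a1
      rw [mu_FS_up] at a2
      calc _ ≤ (kap ν * mu ν (FS α β H A (0, s.2))) * (mu ν {ω | BrTo k ω (up s) (v, s.2)} *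
            (kap ν * mu ν (FS α β H A (0, s.2)))) := by gcongr
        _ = _ := by ring
    · have : {ω | BrTo k ω (up s) (v, s.2)} = ∅ := by
        refine Set.eq_empty_of_forall_notMem ?_
        rintro ω ⟨T, h1, h2⟩
        apply hv
        have a := h1.2.2.2.1
        rw [h2] at a
        change L (s.2 0) (s.2 3) (v, s.2) - L (s.2 0) (s.2 3) (up s) = k at a
        have c := L_up_own s
        have d := p_ne s (show (0 : Fin 4) ≠ 3 by decide)
        simp only [L, be_sub, be_w, if_neg d, if_true] at *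
        omega
      simp [this]
  · rw [ENNReal.tsum_mul_left]
    gcongr
    refine le_trans (disj_le ν _ mb {ω | Good k ω (up s)} ?_ ?_) (mu_Good_tr ν k _ _)
    · rintro v ω ⟨T, h, -⟩; exact ⟨T, h⟩
    · rintro ω v v' ⟨T, h, e⟩ ⟨T', h', e'⟩
      rw [h.uniq h', e'] at e
      exact (congrArg Prod.fst e).symm

end Pool.Agent.MP_5f6c2d_pr.h58

end MrgPart1

-- ======== part 2: formerly Pool.Agent.MP_5f6c2d_pr.h58.Star
section MrgPart2

/- The U-turn inequality. -/

set_option autoImplicit false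
set_option linter.unusedSectionVars false
open scoped Classical ENNReal
open MeasureTheory

namespace Pool.Agent.MP_5f6c2d_pr.h58

def Adm (α β : Fin 4) : Prop := (α = 3 ∧ (β = 1 ∨ β = 2)) ∨ ((α = 1 ∨ α = 2) ∧ β = 0)

theorem rl_rev (ω : Om) (s : St) (t v : ℕ) (hv : v ≤ t) (e : (X ω s t).2 = s.2) :
    rl 0 3 (flip (X ω s t)) (X ω (flip (X ω s t)) v) =
      rl 0 3 s (X ω s t) + 1 - rl 0 3 s (X ω s (t - v + 1)) := by
  have n := p_ne s (show (0 : Fin 4) ≠ 3 by decide)
  have a := L_flip_own (X ω s t)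
  have c := L_X_succ (s.2 0) (s.2 3) ω s (t - v)
  rw [X_rev ω s t v hv]
  simp only [rl, flip_0, flip_3, e] at *
  rw [L_anti n, L_anti n (flip (X ω s t))]
  omega

theorem pair_lemma {α β : Fin 4} (hA : Adm α β) {H A : ℕ} {ω : Om} {s : St} {t : ℕ} (ht : 1 ≤ t)
    (e : (X ω s t).2 = s.2) (h1 : Half α β H A ω s) (h2 : Half α β H A ω (flip s))
    (h3 : Half α β H A ω (X ω s t)) (h4 : Half α β H A ω (flip (X ω s t)))
    (hb : ∀ u, 1 ≤ u → u ≤ t → rl 0 3 s (X ω s u) ≤ H + 1) :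
    1 ≤ rl 0 3 s (X ω s t) ∧ rl 0 3 s (X ω s t) ≤ 2 * A + 7 ∧
      ∀ k : ℕ, rl 0 3 s (X ω s t) = k + 2 → Link α β H A k ω s := by
  have f1 : ∀ u, u ≤ t → _ := fun u hu => h1.elim (t := u) fun u' a c => hb u' a (c.trans hu)
  have g0 : ∀ v, 1 ≤ v → v ≤ t → rl 0 3 (flip (X ω s t)) (X ω (flip (X ω s t)) v) ≤ H + 1 := by
    intro v a c
    have := (f1 (t - v + 1) (by omega)).1 (by omega)
    have := hb t ht le_rfl
    rw [rl_rev ω s t v c e]; omega
  have g1 : ∀ v, v ≤ t → _ := fun v hv => h4.elim (t := v) fun u' a c => g0 u' a (c.trans hv)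
  refine ⟨(f1 t le_rfl).1 ht, ?_, fun k hk => ⟨h2, ?_⟩⟩
  · have a := (f1 t le_rfl).2.2
    have c := (g1 t le_rfl).2.2
    rw [X_rev ω s t t le_rfl, Nat.sub_self, X_zero] at c
    rcases hA with ⟨rfl, hx⟩ | ⟨hx, rfl⟩
    · have l1 := L_tri (s.2 0) (s.2 3) (s.2 β) s
      have l2 := L_tri (s.2 0) (s.2 3) (s.2 β) (X ω s t)
      rcases hx with rfl | rfl <;>
      simp only [rl, flip_1, flip_2, flip_3, e, L_flip, EmbeddingLike.apply_eq_iff_eq] at * <;>
      simp at c <;> omega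
    · have l1 := L_tri (s.2 α) (s.2 0) (s.2 3) s
      have l2 := L_tri (s.2 α) (s.2 0) (s.2 3) (X ω s t)
      rcases hx with rfl | rfl <;>
      simp only [rl, flip_1, flip_2, flip_0, e, L_flip, EmbeddingLike.apply_eq_iff_eq] at * <;>
      simp at c <;> omega
  · obtain ⟨p1, p2⟩ := prism h1.tri h1.1
    obtain ⟨q1, q2⟩ := prism h4.tri h4.1
    have t4 : 4 ≤ t := by
      by_contra hh
      have := p2 t ht (by omega); omega
    have t6 : 6 ≤ t := by
      by_contra hh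
      have a := q2 3 (by omega) le_rfl
      rw [rl_rev ω s t 3 (by omega) e] at a
      have := p2 (t - 3 + 1) (by omega) (by omega); omega
    rw [X_rev ω s t 3 (by omega)] at q1
    have q3 : X ω s (t - 3) = ((X ω s t).1 + w (s.2 3), s.2) := by
      rw [← flip_flip (X ω s (t - 3)), q1, up_eq, Sym.flip_act, flip_flip, tr_act, flip_0, e]
    have ee : ∀ u, X ω (up s) u = X ω s (3 + u) := fun u => by rw [← p1, X_add]
    have l3 := L_up_own s
    have r1 : ∀ x, rl 0 3 (up s) x = rl 0 3 s x - 1 := fun x => by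
      change L (s.2 0) (s.2 3) x - L (s.2 0) (s.2 3) (up s) = _
      unfold rl; omega
    have e6 : X ω (up s) (t - 6) = ((X ω s t).1 + w (s.2 3), s.2) := by
      rw [ee, ← q3]; congr 1; omega
    refine ⟨(X ω s t).1 + w (s.2 3), ⟨t - 6, ⟨?_, ?_, ?_, ?_, fun u a c => ?_⟩, e6⟩, ?_⟩
    · rw [← p1]; exact tri_X h1.tri 3
    · rw [e6]; rfl
    · rw [e6]; rfl
    · have n := p_ne s (show (0 : Fin 4) ≠ 3 by decide)
      rw [e6, r1]
      simp only [rl, L, e, be_add, be_w, if_neg n, if_true] at hk ⊢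
      omega
    · have a1 := (f1 (3 + u) (by omega)).2.1 (by omega)
      have a2 := (g1 (t - (3 + u) + 1) (by omega)).2.1 (by omega)
      rw [rl_rev ω s t _ (by omega) e, show t - (t - (3 + u) + 1) + 1 = 3 + u by omega] at a2
      rw [ee, r1]; omega
    · rw [add_sub_cancel_right, ← e]; exact h3

theorem Half.horizon {α β : Fin 4} {H A : ℕ} {ω : Om} {s : St} (h : Half α β H A ω s) :
    ∃ t2, rl 0 3 s (X ω s t2) = H + 1 ∧ ∀ u, 1 ≤ u → u ≤ t2 → rl 0 3 s (X ω s u) ≤ H + 1 := by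
  obtain ⟨p1, p2⟩ := prism h.tri h.1
  obtain ⟨T, h1, -⟩ := h.2
  have ee : ∀ u, X ω (up s) u = X ω s (3 + u) := fun u => by rw [← p1, X_add]
  have l3 := L_up_own s
  have r1 : ∀ x, rl 0 3 (up s) x = rl 0 3 s x - 1 := fun x => by
    change L (s.2 0) (s.2 3) x - L (s.2 0) (s.2 3) (up s) = _
    unfold rl; omega
  refine ⟨3 + T, ?_, fun u a c => ?_⟩
  · have := h1.2.2.2.1
    rw [ee, r1] at this; omega
  · rcases Nat.lt_or_ge 3 u with d | d
    · have := (h1.2.2.2.2 (u - 3) (by omega) (by omega)).2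
      rw [ee, r1, show 3 + (u - 3) = u by omega] at this; omega
    · have := p2 u a d; omega

/- Many receivers at distinct levels. -/
theorem many {i j : Fin 4} {R : St → Prop} (m0 : ℤ) (a : ℕ)
    (h : ∀ m : ℕ, m < a → ∃ s', L i j s' = m0 + m ∧ R s') :
    ∃ A : Finset St, a ≤ A.card ∧ ∀ s' ∈ A, R s' := by
  choose f hf using h
  refine ⟨(Finset.range a).attach.image fun m => f m.1 (Finset.mem_range.1 m.2), ?_, ?_⟩
  · rw [Finset.card_image_of_injective, Finset.card_attach, Finset.card_range]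
    intro m m' e
    have h1 := (hf m.1 (Finset.mem_range.1 m.2)).1
    have h2 := (hf m'.1 (Finset.mem_range.1 m'.2)).1
    simp only at e
    rw [e, h2] at h1
    exact Subtype.ext (by omega)
  · intro s' hs
    obtain ⟨m, -, rfl⟩ := Finset.mem_image.1 hs
    exact (hf _ _).2

variable (ν : Measure (Fin 3)) [IsProbabilityMeasure ν] (α β : Fin 4) (H A : ℕ)

noncomputable def NL (ω : Om) (s : St) : ℕ :=
  ((Finset.range (2 * A + 6)).filter fun k => Link α β H A k ω s).card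

theorem meas_NL (s : St) : Measurable fun ω => NL α β H A ω s := by
  simp only [NL, Finset.card_filter]
  exact Finset.measurable_sum _ fun k _ => Measurable.ite
    (measurableSet_setOfPred.2 (meas_Link _ _ _ _ _ _)) measurable_const measurable_const

def Snd (π : P4) (M : ℕ) (ω : Om) (s : St) : Prop :=
  s.2 = π ∧ Half α β H A ω s ∧ Half α β H A ω (flip s) ∧ NL α β H A ω s < M

def R1 (π : P4) (M K : ℕ) (ω : Om) (s s' : St) : Prop :=
  Snd α β H A π M ω s ∧ Good K ω s' ∧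
    ∃ t, X ω s t = s' ∧ ∀ u, 1 ≤ u → u ≤ t → rl 0 3 s (X ω s u) ≤ H + 1

theorem star0 (hA : Adm α β) (π : P4) (M K a : ℕ) (hK : a + K ≤ H + 1) :
    a * dens ν (Snd α β H A π M) ≤ (M + 1 : ℕ) * dens ν (Good K) := by
  refine mtp ν (R1 α β H A π M K) (fun s s' => ?_) (fun v ω s s' => ?_) _ _ _ _
    (fun ω s h => ?_) (fun ω s s' h => h.2.1) (fun ω s' B hB => ?_)
  · refine Measurable.and (measurable_const.and <| (meas_Half _ _ _ _ _).and <|
      (meas_Half _ _ _ _ _).and ?_) <| (meas_Good _ _).and <| Measurable.exists fun t =>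
      (meas_XP s t fun x => x = s').and <| Measurable.forall fun u => measurable_const.imp <|
        measurable_const.imp <| meas_XP s u fun x => rl 0 3 s x ≤ H + 1
    exact (measurable_from_top (f := fun n : ℕ => n < M)).comp (meas_NL _ _ _ _ _)
  · simp only [R1, Snd, NL, Link_tr, Sym.flip_act, Sym.Half_act, Sym.Good_act, Sym.X_act,
      Sym.rl_act, (tr v).act_inj.eq_iff]
    rw [tr_act]
  · obtain ⟨t2, h1, h2⟩ := h.2.1.horizon
    refine many (i := s.2 0) (j := s.2 3) (L (s.2 0) (s.2 3) s) a fun m hm => ?_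
    obtain ⟨t, T, -, c1, c2, -, -, c3⟩ := last_cross h.2.1.tri (i := s.2 0) (j := s.2 3)
      (t1 := 0) (t2 := t2) (m := L (s.2 0) (s.2 3) s + m) (k := K) (Nat.zero_le _)
      (by simp) (by unfold rl at h1; omega)
    exact ⟨_, c2, h, ⟨T, c3⟩, t, rfl, fun u a c => h2 u a (by omega)⟩
  · rcases B.eq_empty_or_nonempty with rfl | hne
    · simp
    choose! τ hτ using fun s (hs : s ∈ B) => (hB s hs).2.2
    obtain ⟨s1, hs1, hmax⟩ := Finset.exists_max_image B τ hne
    have key : ∀ s ∈ B, ∀ s2 ∈ B, τ s2 < τ s → s2 = X ω s (τ s - τ s2) ∧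
        1 ≤ rl 0 3 s s2 ∧ rl 0 3 s s2 ≤ 2 * A + 7 ∧
          ∀ k : ℕ, rl 0 3 s s2 = k + 2 → Link α β H A k ω s := by
      intro s hs s2 hs2 hlt
      have e := X_meet ((hτ s hs).1.trans (hτ s2 hs2).1.symm) hlt.le
      obtain ⟨a1, a2, a3, -⟩ := (hB s hs).1
      obtain ⟨b1, b2, b3, -⟩ := (hB s2 hs2).1
      refine ⟨e, ?_⟩
      rw [e] at b1 b2 b3 ⊢
      exact pair_lemma hA (by omega) (b1.trans a1.symm) a2 a3 b2 b3
        fun u a c => (hτ s hs).2 u a (by omega)
    have eqτ : ∀ s ∈ B, ∀ s2 ∈ B, τ s2 = τ s → s2 = s := fun s hs s2 hs2 e =>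
      X_inj ω (τ s) (by rw [(hτ s hs).1, ← e, (hτ s2 hs2).1])
    have ty : ∀ s ∈ B, s.2 = s1.2 := fun s hs => (hB s hs).1.1.trans (hB s1 hs1).1.1.symm
    have hN := (hB s1 hs1).1.2.2.2
    let T : Finset ℤ := insert 0 (insert 1 (((Finset.range (2 * A + 6)).filter
      fun k => Link α β H A k ω s1).image fun k : ℕ => (k : ℤ) + 2))
    have hT : T.card ≤ M + 1 := by
      refine (Finset.card_insert_le _ _).trans ?_
      have := Finset.card_insert_le (1 : ℤ) (((Finset.range (2 * A + 6)).filter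
        fun k => Link α β H A k ω s1).image fun k : ℕ => (k : ℤ) + 2)
      have := Finset.card_image_le (s := (Finset.range (2 * A + 6)).filter
        fun k => Link α β H A k ω s1) (f := fun k : ℕ => (k : ℤ) + 2)
      unfold NL at hN
      omega
    refine le_trans (Finset.card_le_card_of_injOn (fun s => rl 0 3 s1 s) (fun s hs => ?_) ?_) hT
    · simp only [T, Finset.coe_insert, Set.mem_insert_iff, Finset.mem_coe, Finset.mem_image,
        Finset.mem_filter, Finset.mem_range]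
      rcases (hmax s hs).lt_or_eq with h | h
      · obtain ⟨-, c1, c2, c3⟩ := key s1 hs1 s hs h
        by_cases h1 : rl 0 3 s1 s = 1
        · exact Or.inr (Or.inl h1)
        · refine Or.inr (Or.inr ⟨(rl 0 3 s1 s - 2).toNat, ⟨by omega, c3 _ (by omega)⟩, by omega⟩)
      · left; rw [eqτ s1 hs1 s hs h]; simp [rl]
    · intro s hs s2 hs2 e
      have y1 := ty s hs
      have y2 := ty s2 hs2
      rcases lt_trichotomy (τ s) (τ s2) with h | h | h
      · have := (key s2 hs2 s hs h).2.1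
        simp only [rl, y1, y2] at *; omega
      · exact eqτ s2 hs2 s hs h
      · have := (key s hs s2 hs2 h).2.1
        simp only [rl, y1, y2] at *; omega

noncomputable def uu (k : ℕ) : ℝ := (dens ν (Good k)).toReal
noncomputable def kk : ℝ := (kap ν).toReal
noncomputable def qq (π : P4) : ℝ := (mu ν (FS α β H A (0, π))).toReal

theorem kap_ne_top : kap ν ≠ ⊤ := by unfold kap; finiteness

theorem star (hA : Adm α β) (π : P4) (K a : ℕ) (hK : a + K ≤ H + 1) :
    a * kk ν * qq ν α β H A π ^ 2 ≤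
      1458 * (1458 * kk ν * (∑ k ∈ Finset.range (2 * A + 6), uu ν k) + 3) * uu ν K := by
  set G := ∑ k ∈ Finset.range (2 * A + 6), uu ν k with hG
  have k0 : 0 ≤ kk ν := ENNReal.toReal_nonneg
  have G0 : 0 ≤ G := Finset.sum_nonneg fun _ _ => ENNReal.toReal_nonneg
  have u0 : 0 ≤ uu ν K := ENNReal.toReal_nonneg
  obtain ⟨M, hM1, hM2⟩ : ∃ M : ℕ, 1458 * kk ν * G < M ∧ (M : ℝ) ≤ 1458 * kk ν * G + 1 :=
    ⟨⌊1458 * kk ν * G⌋₊ + 1, by push_cast; exact Nat.lt_floor_add_one _,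
      by push_cast; linarith [Nat.floor_le (show 0 ≤ 1458 * kk ν * G by positivity)]⟩
  have h1 := star0 ν α β H A hA π M K a hK
  have h2 := mu_U_ge ν α β H A (0, π)
  have h3 : mu ν (HS α β H A (0, π) ∩ HS α β H A (flip (0, π))) ≤
      dens ν (Snd α β H A π M) + mu ν {ω | M ≤ NL α β H A ω (0, π)} := by
    refine le_trans (measure_mono fun ω h => ?_)
      ((measure_union_le _ _).trans (add_le_add_left (le_dens ν _ π) _))
    by_cases hh : NL α β H A ω (0, π) < M
    · exact Or.inl ⟨rfl, h.1, h.2, hh⟩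
    · exact Or.inr (not_lt.1 hh)
  have h4 : M * mu ν {ω | M ≤ NL α β H A ω (0, π)} ≤ ∑ k ∈ Finset.range (2 * A + 6),
      (kap ν * mu ν (FS α β H A (0, π))) ^ 2 * dens ν (Good k) := by
    refine le_trans (out_bound ν (fun k : Finset.range (2 * A + 6) =>
      {ω | Link α β H A k ω (0, π)}) (fun k => measurableSet_setOfPred.2 (meas_Link _ _ _ _ _ _))
      _ M fun ω h => ⟨Finset.univ.filter fun k => Link α β H A k ω (0, π), ?_, fun k hk =>
        (Finset.mem_filter.1 hk).2⟩) ?_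
    · refine le_trans h (le_of_eq ?_)
      rw [NL, Finset.univ_eq_attach,
        Finset.filter_attach (fun k => Link α β H A k ω (0, π)), Finset.card_map, Finset.card_attach]
    · rw [tsum_fintype, Finset.sum_coe_sort (Finset.range (2 * A + 6))
        fun k => mu ν {ω | Link α β H A k ω (0, π)}]
      exact Finset.sum_le_sum fun k _ => mu_Link ν α β H A k (0, π)
  have kt := kap_ne_top ν
  have dt := fun P => dens_ne_top ν P
  have r1 := ENNReal.toReal_mono (by have := dt (Good K); finiteness) h1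
  have r2 := ENNReal.toReal_mono (by finiteness) h2
  have r3 := ENNReal.toReal_mono (by have := dt (Snd α β H A π M); finiteness) h3
  have r4 := ENNReal.toReal_mono (ENNReal.sum_ne_top.2 fun k _ => by
    have := dt (Good k); finiteness) h4
  rw [ENNReal.toReal_add (dt _) (by finiteness)] at r3
  rw [ENNReal.toReal_sum fun k _ => by have := dt (Good k); finiteness] at r4
  simp only [ENNReal.toReal_mul, ENNReal.toReal_pow, ENNReal.toReal_natCast,
    ENNReal.toReal_ofNat] at r1 r2 r4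
  rw [← Finset.mul_sum] at r4
  change _ ≤ _ * uu ν K at r1
  change kk ν * qq ν α β H A π ^ 2 ≤ _ at r2
  change _ ≤ (kk ν * qq ν α β H A π) ^ 2 * G at r4
  generalize (dens ν (Snd α β H A π M)).toReal = S at *
  have n0 : 0 ≤ (mu ν {ω | M ≤ NL α β H A ω (0, π)}).toReal := ENNReal.toReal_nonneg
  generalize (mu ν {ω | M ≤ NL α β H A ω (0, π)}).toReal = N at *
  generalize (mu ν (HS α β H A (0, π) ∩ HS α β H A (flip (0, π)))).toReal = U at *
  generalize qq ν α β H A π = q at *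
  have M0 : (0 : ℝ) < M := lt_of_le_of_lt (by positivity) hM1
  have h5 : 1458 * N ≤ kk ν * q ^ 2 := by
    refine le_of_mul_le_mul_left ?_ M0
    have : 0 ≤ kk ν * q ^ 2 := by positivity
    nlinarith
  have h6 : kk ν * q ^ 2 ≤ 1458 * S := by linarith
  push_cast at r1
  have a0 : (0 : ℝ) ≤ a := Nat.cast_nonneg a
  calc _ = a * (kk ν * q ^ 2) := by ring
    _ ≤ a * (1458 * S) := by gcongr
    _ = 1458 * (a * S) := by ring
    _ ≤ 1458 * ((M + 1) * uu ν K) := by gcongr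
    _ ≤ 1458 * ((1458 * kk ν * G + 3) * uu ν K) :=
      mul_le_mul_of_nonneg_left (mul_le_mul_of_nonneg_right (by linarith) u0) (by norm_num)
    _ = _ := by ring

end Pool.Agent.MP_5f6c2d_pr.h58

end MrgPart2

-- ======== part 3: formerly Pool.Agent.MP_5f6c2d_pr.h58.Seg
section MrgPart3

/- Segments of the path: either many zigzags or many straight roots. -/

set_option autoImplicit false
set_option linter.unusedSectionVars false
open scoped Classical ENNReal
open MeasureTheory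

namespace Pool.Agent.MP_5f6c2d_pr.h58

def RS (Q : Om → St → Prop) (S : ℕ) (ω : Om) (s s' : St) : Prop :=
  Good (2 * S) ω s ∧ Q ω s' ∧ ∃ t, X ω s t = s' ∧ ∀ u, u ≤ t → ∀ α β, rl α β s (X ω s u) < S

def PS (Q : Om → St → Prop) (S a : ℕ) (ω : Om) (s : St) : Prop :=
  ∃ B : Finset St, a ≤ B.card ∧ ∀ s' ∈ B, RS Q S ω s s'

def Zig (k k' : ℕ) (ω : Om) (s : St) : Prop := Good k ω s ∧ ¬ Good k' ω s
def Fany (H A : ℕ) (ω : Om) (s : St) : Prop := ∃ α β, Adm α β ∧ Fd α β H A ω s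

theorem orient (f : ℕ → ℤ) (T : ℕ) (D : ℤ) (hD : 0 ≤ D)
    (h1 : ∀ t1 t2 t3, t1 ≤ t2 → t2 ≤ t3 → t3 ≤ T → D ≤ f t2 - f t1 → f t2 - D ≤ f t3)
    (h2 : ∀ t1 t2 t3, t1 ≤ t2 → t2 ≤ t3 → t3 ≤ T → D ≤ f t1 - f t2 → f t3 ≤ f t2 + D) :
    (∀ t1 t2, t1 ≤ t2 → t2 ≤ T → f t1 - 2 * D ≤ f t2) ∨
      (∀ t1 t2, t1 ≤ t2 → t2 ≤ T → f t2 ≤ f t1 + 2 * D) := by
  by_contra hh
  push Not at hh
  obtain ⟨⟨t1, t2, a1, a2, a3⟩, t3, t4, c1, c2, c3⟩ := hh
  have := h1 t3 t4 t1; have := h1 t3 t4 t2; have := h1 t3 t1 t2; have := h1 t3 t4 t4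
  have := h2 t1 t2 t3; have := h2 t1 t2 t4; have := h2 t1 t3 t4; have := h2 t1 t2 t2
  have := h1 t3 t1 t4; have := h2 t1 t3 t2; have := h1 t3 t2 t4; have := h2 t1 t4 t2
  omega

theorem others (i l : Fin 4) (h : i ≠ l) :
    ∃ j k : Fin 4, j ≠ i ∧ j ≠ l ∧ k ≠ i ∧ k ≠ l ∧ j ≠ k := by
  revert i l; decide

theorem tour (y : Fin 4 → Fin 4 → ℤ) (Dp : Fin 4 → Fin 4 → Prop) (H : ℤ) (hH : 0 ≤ H)
    (hy : ∀ a c d, y a d ≤ y a c + y c d + 1) (hD : ∀ a c, a ≠ c → Dp a c ∨ Dp c a)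
    {i l : Fin 4} (hil : i ≠ l) (h : 6 * H + 9 ≤ y i l) :
    ∃ i' j' a c, 2 * H + 1 ≤ y i' j' ∧ Dp a c ∧
      ((a = j' ∧ c ≠ i' ∧ c ≠ j') ∨ (c = i' ∧ a ≠ i' ∧ a ≠ j')) := by
  have main : ∀ j k : Fin 4, j ≠ i → j ≠ l → k ≠ i → k ≠ l → j ≠ k → Dp j k →
      ∃ i' j' a c, 2 * H + 1 ≤ y i' j' ∧ Dp a c ∧
      ((a = j' ∧ c ≠ i' ∧ c ≠ j') ∨ (c = i' ∧ a ≠ i' ∧ a ≠ j')) := by
    intro j k n1 n2 n3 n4 n5 hjk
    by_cases c1 : 2 * H + 1 ≤ y i j
    · exact ⟨i, j, j, k, c1, hjk, Or.inl ⟨rfl, n3, n5.symm⟩⟩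
    by_cases c2 : 2 * H + 1 ≤ y k l
    · exact ⟨k, l, j, k, c2, hjk, Or.inr ⟨rfl, n5, n2⟩⟩
    have e1 := hy i k l
    have e2 := hy i j k
    rcases hD i j n1.symm with d | d
    · exact ⟨j, k, i, j, by omega, d, Or.inr ⟨rfl, n1.symm, n3.symm⟩⟩
    · exact ⟨i, k, j, i, by omega, d, Or.inr ⟨rfl, n1, n5⟩⟩
  obtain ⟨j, k, n1, n2, n3, n4, n5⟩ := others i l hil
  rcases hD j k n5 with d | d
  · exact main j k n1 n2 n3 n4 n5 d
  · exact main k j n3 n4 n1 n2 n5.symm d

theorem dichotomy {A1 E H : ℕ} {ω : Om} {s : St} (h : Good (2 * (6 * H + 9)) ω s) :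
    PS (Zig A1 (2 * (6 * H + 9))) (6 * H + 9) E ω s ∨
      PS (Fany H (2 * (A1 + E))) (6 * H + 9) H ω s := by
  set S := 6 * H + 9 with hS
  have ex : ∃ t, ∃ α β, (S : ℤ) ≤ rl α β s (X ω s t) := by
    obtain ⟨T, h⟩ := h
    exact ⟨T, 0, 3, by rw [h.2.2.2.1]; omega⟩
  obtain ⟨α0, β0, e0⟩ := Nat.find_spec ex
  have e1 : ∀ u, u < Nat.find ex → ∀ α β, rl α β s (X ω s u) < S := fun u hu α β => by
    have := Nat.find_min ex hu
    push Not at this
    exact this α β
  generalize Nat.find ex = T at *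
  have ht : tri ω s := by obtain ⟨T, h⟩ := h; exact h.1
  have e2 : ∀ u, u ≤ T → ∀ i j, L i j (X ω s u) - L i j s ≤ S := by
    intro u hu i j
    obtain ⟨α, rfl⟩ := s.2.surjective i
    obtain ⟨β, rfl⟩ := s.2.surjective j
    rcases u with _ | u
    · simp
    · have := e1 u (by omega) α β
      have := L_step (s.2 α) (s.2 β) ω s u
      unfold rl at *; omega
  by_cases hz : ∃ i j t1 t2 t3, i ≠ j ∧ t1 ≤ t2 ∧ t2 ≤ t3 ∧ t3 ≤ T ∧
      (A1 + E : ℤ) ≤ L i j (X ω s t2) - L i j (X ω s t1) ∧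
      L i j (X ω s t3) < L i j (X ω s t2) - (A1 + E)
  · left
    obtain ⟨i, j, t1, t2, t3, n, a1, a2, a3, a4, a5⟩ := hz
    refine many (i := i) (j := j) (L i j (X ω s t2) - (A1 + E)) E fun m hm => ?_
    obtain ⟨t, T', -, c1, c2, c3, c4, c5⟩ := last_cross ht (i := i) (j := j) (t1 := t1) (t2 := t2)
      (m := L i j (X ω s t2) - (A1 + E) + m) (k := A1) a1 (by omega) (by omega)
    refine ⟨_, c2, h, ⟨⟨T', c5⟩, ?_⟩, t, rfl, fun u hu => e1 u (by omega)⟩
    rintro ⟨T2, d⟩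
    have d1 : t3 - t ≤ T2 := d.le fun u _ c => by
      have := e2 (t + u) (by omega) i j
      have := e2 t (by omega) j i
      rw [L_anti n, L_anti n s] at this
      simp only [rl, X_add, c3, c4]; push_cast; omega
    have d2 := (d.2.2.2.2 (t3 - t) (by omega) d1).1
    simp only [rl, X_add, c3, c4, show t + (t3 - t) = t3 by omega] at d2
    omega
  · right
    push Not at hz
    obtain ⟨i', j', a, c, k1, k2, k3⟩ := tour (fun i j => L i j (X ω s T) - L i j s)
      (fun a c => ∀ t1 t2, t1 ≤ t2 → t2 ≤ T →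
        L a c (X ω s t1) - 2 * (A1 + E : ℤ) ≤ L a c (X ω s t2)) H (by omega)
      (fun a c d => by
        have := L_tri a c d (X ω s T); have := L_tri a c d s; omega)
      (fun a c n => by
        refine (orient (fun t => L a c (X ω s t)) T (A1 + E) (by omega)
          (fun t1 t2 t3 => hz a c t1 t2 t3 n)
          fun t1 t2 t3 a1 a2 a3 a4 => ?_).imp id fun d t1 t2 a1 a2 => ?_
        · have := hz c a t1 t2 t3 n.symm a1 a2 a3
          simp only [L_anti n] at this; omega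
        · have := d t1 t2 a1 a2
          simp only [L_anti n]; omega)
      (i := s.2 α0) (l := s.2 β0)
      (fun e => by simp only [rl, e, L_self] at e0; omega) (by unfold rl at e0; omega)
    refine many (i := i') (j := j') (L i' j' s) H fun m hm => ?_
    obtain ⟨t, T', -, c1, c2, c3, c4, c5⟩ := last_cross ht (i := i') (j := j') (t1 := 0) (t2 := T)
      (m := L i' j' s + m) (k := H) (Nat.zero_le _) (by simp) (by omega)
    refine ⟨_, c2, h, ?_, t, rfl, fun u hu => e1 u (by omega)⟩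
    obtain ⟨α, rfl⟩ := (X ω s t).2.surjective a
    obtain ⟨β, rfl⟩ := (X ω s t).2.surjective c
    refine ⟨α, β, ?_, T', c5, fun u hu => ?_⟩
    · rw [← c3, ← c4] at k3
      simp only [ne_eq, EmbeddingLike.apply_eq_iff_eq] at k3
      unfold Adm; omega
    · have := k2 t (t + u) (by omega) (by omega)
      simp only [rl, X_add]; push_cast; omega

variable (ν : Measure (Fin 3)) [IsProbabilityMeasure ν]

theorem seg_mtp (Q : Om → St → Prop) (hm : ∀ s, Measurable fun ω => Q ω s)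
    (hc : ∀ (g : Sym) ω s, Q ω (g.act s) ↔ Q (fun u => ω (g.φ u)) s) (S a : ℕ) :
    a * dens ν (PS Q S a) ≤ (16 * (2 * S + 1) : ℕ) * dens ν Q := by
  refine mtp ν (RS Q S) (fun s s' => ?_) (fun v ω s s' => ?_) _ _ _ _
    (fun ω s h => h) (fun ω s s' h => h.2.1) (fun ω s' B hB => ?_)
  · exact (meas_Good _ _).and <| (hm _).and <| Measurable.exists fun t =>
      (meas_XP s t fun x => x = s').and <| Measurable.forall fun u => measurable_const.imp <|
        meas_XP s u fun x => ∀ α β, rl α β s x < S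
  · simp only [RS, hc, Sym.Good_act, Sym.X_act, Sym.rl_act, (tr v).act_inj.eq_iff]
  · choose! τ hτ using fun s (hs : s ∈ B) => (hB s hs).2.2
    have key : ∀ s ∈ B, ∀ s2 ∈ B, τ s2 < τ s → 1 ≤ rl 0 3 s s2 := by
      intro s hs s2 hs2 hlt
      have e := X_meet ((hτ s hs).1.trans (hτ s2 hs2).1.symm) hlt.le
      obtain ⟨T, d⟩ := (hB s hs).1
      rw [e]
      refine (d.2.2.2.2 _ (by omega) (d.le fun u _ c => ?_)).1
      have := (hτ s hs).2 u (by omega) 0 3
      push_cast; omega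
    have hc : (Finset.univ ×ˢ Finset.univ ×ˢ Finset.Icc (-(S : ℤ)) S :
        Finset (Fin 4 × Fin 4 × ℤ)).card = 16 * (2 * S + 1) := by
      simp only [Finset.card_product, Finset.card_univ, Fintype.card_fin, Int.card_Icc]
      omega
    rw [← hc]
    refine Finset.card_le_card_of_injOn (fun s => (s.2 0, s.2 3, rl 0 3 s s')) (fun s hs => ?_) ?_
    · have a1 := (hτ s hs).2 _ le_rfl 0 3
      have a2 := (hτ s hs).2 _ le_rfl 3 0
      have n := p_ne s (show (0 : Fin 4) ≠ 3 by decide)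
      rw [(hτ s hs).1] at a1 a2
      simp only [rl, L_anti n] at a1 a2
      simp only [Finset.coe_product, Set.mem_prod, Finset.mem_coe, Finset.mem_univ, true_and,
        Finset.mem_Icc, rl]
      omega
    · intro s hs s2 hs2 e
      simp only [Prod.mk.injEq] at e
      obtain ⟨y1, y2, y3⟩ := e
      rcases lt_trichotomy (τ s) (τ s2) with h | h | h
      · have := key s2 hs2 s hs h
        simp only [rl, y1, y2] at *; omega
      · exact X_inj ω (τ s) (by rw [(hτ s hs).1, h, (hτ s2 hs2).1])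
      · have := key s hs s2 hs2 h
        simp only [rl, y1, y2] at *; omega

theorem uu_nonneg (k : ℕ) : 0 ≤ uu ν k := ENNReal.toReal_nonneg

theorem uu_anti {k k' : ℕ} (h : k' ≤ k) : uu ν k ≤ uu ν k' :=
  ENNReal.toReal_mono (dens_ne_top ν _) (dens_mono ν fun _ _ hh => hh.mono h)

theorem uu_le (k : ℕ) : uu ν k ≤ 648 * kk ν := by
  have h1 : dens ν (Good k) ≤ 24 * (27 * kap ν) := dens_le ν fun π =>
    le_trans (measure_mono fun ω h => by obtain ⟨T, h⟩ := h; exact h.1) (mu_tri ν (0, π))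
  have := ENNReal.toReal_mono (by have := kap_ne_top ν; finiteness) h1
  simp only [ENNReal.toReal_mul, ENNReal.toReal_ofNat] at this
  unfold uu kk; linarith

theorem zig_le {k k' : ℕ} (h : k ≤ k') : (dens ν (Zig k k')).toReal ≤ uu ν k - uu ν k' := by
  have h1 : dens ν (Zig k k') + dens ν (Good k') ≤ dens ν (Good k) := by
    unfold dens
    rw [← Finset.sum_add_distrib]
    refine Finset.sum_le_sum fun π _ => ?_
    rw [← measure_union (Set.disjoint_left.2 fun ω a c => a.2 c)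
      (measurableSet_setOfPred.2 (meas_Good _ _))]
    exact measure_mono fun ω hh => hh.elim (fun a => a.1) fun a => Good.mono a h
  have := ENNReal.toReal_mono (dens_ne_top ν _) h1
  rw [ENNReal.toReal_add (dens_ne_top ν _) (dens_ne_top ν _)] at this
  unfold uu; linarith

theorem fany_le {H A : ℕ} {Q : ℝ} (hQ0 : 0 ≤ Q)
    (hQ : ∀ α β π, Adm α β → qq ν α β H A π ≤ Q) : (dens ν (Fany H A)).toReal ≤ 96 * Q := by
  have h0 : ∀ α β π, Adm α β → mu ν (FS α β H A (0, π)) ≤ ENNReal.ofReal Q := fun α β π h =>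
    (ENNReal.le_ofReal_iff_toReal_le (by finiteness) hQ0).2 (hQ α β π h)
  have h1 : dens ν (Fany H A) ≤ 24 * (4 * ENNReal.ofReal Q) := dens_le ν fun π => by
    have : {ω | Fany H A ω (0, π)} ⊆ (FS 3 1 H A (0, π) ∪ FS 3 2 H A (0, π)) ∪
        (FS 1 0 H A (0, π) ∪ FS 2 0 H A (0, π)) := by
      rintro ω ⟨α, β, (⟨rfl, rfl | rfl⟩ | ⟨rfl | rfl, rfl⟩), h⟩
      exacts [Or.inl (Or.inl h), Or.inl (Or.inr h), Or.inr (Or.inl h), Or.inr (Or.inr h)]
    refine (measure_mono this).trans ((measure_union_le _ _).trans ?_)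
    refine (add_le_add (measure_union_le _ _) (measure_union_le _ _)).trans ?_
    refine (add_le_add (add_le_add (h0 3 1 π (by simp [Adm])) (h0 3 2 π (by simp [Adm])))
      (add_le_add (h0 1 0 π (by simp [Adm])) (h0 2 0 π (by simp [Adm])))).trans (le_of_eq ?_)
    ring
  have := ENNReal.toReal_mono (by finiteness) h1
  simp only [ENNReal.toReal_mul, ENNReal.toReal_ofNat, ENNReal.toReal_ofReal hQ0] at this
  linarith

theorem seg {A1 E H : ℕ} (hA : A1 ≤ 2 * (6 * H + 9)) {Q : ℝ} (hQ0 : 0 ≤ Q)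
    (hQ : ∀ α β π, Adm α β → qq ν α β H (2 * (A1 + E)) π ≤ Q) :
    ∃ x y : ℝ, uu ν (2 * (6 * H + 9)) ≤ x + y ∧
      E * x ≤ 16 * (12 * H + 19) * (uu ν A1 - uu ν (2 * (6 * H + 9))) ∧
      H * y ≤ 16 * (12 * H + 19) * (96 * Q) := by
  have h1 := dens_or ν fun ω s (h : Good (2 * (6 * H + 9)) ω s) => dichotomy (A1 := A1) (E := E) h
  have h2 := seg_mtp ν (Zig A1 (2 * (6 * H + 9)))
    (fun s => (meas_Good _ _).and (meas_Good _ _).not)
    (fun g ω s => by simp only [Zig, g.Good_act]) (6 * H + 9) E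
  have h3 := seg_mtp ν (Fany H (2 * (A1 + E)))
    (fun s => Measurable.exists fun α => Measurable.exists fun β =>
      measurable_const.and (meas_Fd _ _ _ _ _))
    (fun g ω s => by simp only [Fany, g.Fd_act]) (6 * H + 9) H
  have dt := fun P => dens_ne_top ν P
  have r1 := ENNReal.toReal_mono (ENNReal.add_ne_top.2 ⟨dt _, dt _⟩) h1
  have r2 := ENNReal.toReal_mono (ENNReal.mul_ne_top (ENNReal.natCast_ne_top _) (dt _)) h2
  have r3 := ENNReal.toReal_mono (ENNReal.mul_ne_top (ENNReal.natCast_ne_top _) (dt _)) h3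
  rw [ENNReal.toReal_add (dt _) (dt _)] at r1
  simp only [ENNReal.toReal_mul, ENNReal.toReal_natCast] at r2 r3
  push_cast at r2 r3
  refine ⟨_, _, r1, r2.trans ?_, r3.trans ?_⟩
  · rw [show (2 * (6 * (H : ℝ) + 9) + 1) = 12 * H + 19 by ring]
    gcongr; exact zig_le ν hA
  · rw [show (2 * (6 * (H : ℝ) + 9) + 1) = 12 * H + 19 by ring]
    gcongr; exact fany_le ν hQ0 hQ

def Far (n r : ℕ) (ω : Om) (s : St) : Prop :=
  tri ω s ∧ ∃ t, t ≤ n ∧ ∃ i j, (r : ℤ) ≤ L i j (X ω s t) - L i j s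

theorem far_le (n r K a : ℕ) (h : a + K ≤ r) :
    a * dens ν (Far n r) ≤ (n + 1 : ℕ) * dens ν (Good K) := by
  refine mtp ν (fun ω s s' => Good K ω s' ∧ ∃ t, t ≤ n ∧ X ω s t = s') (fun s s' => ?_)
    (fun v ω s s' => ?_) _ _ _ _ (fun ω s h => ?_) (fun ω s s' h => h.1) (fun ω s' B hB => ?_)
  · exact (meas_Good _ _).and <| Measurable.exists fun t => measurable_const.and <|
      meas_XP s t fun x => x = s'
  · simp only [Sym.Good_act, Sym.X_act, (tr v).act_inj.eq_iff]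
  · obtain ⟨ht, t2, h1, i, j, h2⟩ := h
    refine many (i := i) (j := j) (L i j s) a fun m hm => ?_
    obtain ⟨t, T', -, c1, c2, -, -, c5⟩ := last_cross ht (i := i) (j := j) (t1 := 0) (t2 := t2)
      (m := L i j s + m) (k := K) (Nat.zero_le _) (by simp) (by omega)
    exact ⟨_, c2, ⟨T', c5⟩, t, by omega, rfl⟩
  · choose! τ hτ using fun s (hs : s ∈ B) => (hB s hs).2
    rw [← Finset.card_range (n + 1)]
    refine Finset.card_le_card_of_injOn τ (fun s hs => ?_) fun s hs s2 hs2 e => ?_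
    · have := (hτ s hs).1
      simp only [Finset.coe_range, Set.mem_Iio]; omega
    · exact X_inj ω (τ s) (by rw [(hτ s hs).2, e, (hτ s2 hs2).2])

end Pool.Agent.MP_5f6c2d_pr.h58

end MrgPart3

-- ======== part 4: formerly Pool.Agent.MP_5f6c2d_pr.h58.Decay
section MrgPart4

/- Polynomial decay of the half-space crossing density. -/

set_option autoImplicit false
set_option linter.unusedSectionVars false
open scoped Classical ENNReal
open MeasureTheory Finset

namespace Pool.Agent.MP_5f6c2d_pr.h58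

theorem sum_split (u : ℕ → ℝ) (hu : Antitone u) (h0 : ∀ k, 0 ≤ u k) {a N : ℕ} {c : ℝ}
    (hN : (N : ℝ) ≤ a + c) (hc : 0 ≤ c) : ∑ k ∈ range N, u k ≤ ∑ k ∈ range a, u k + c * u a := by
  rcases Nat.le_total N a with h | h
  · have := sum_le_sum_of_subset_of_nonneg (f := u) (range_mono h) fun k _ _ => h0 k
    have := mul_nonneg hc (h0 a)
    linarith
  · rw [← sum_range_add_sum_Ico u h]
    have := sum_le_card_nsmul (Ico a N) u (u a) fun k hk => hu (mem_Ico.1 hk).1
    rw [Nat.card_Ico, nsmul_eq_mul, Nat.cast_sub h] at this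
    have := mul_le_mul_of_nonneg_right (show (N : ℝ) - a ≤ c by linarith) (h0 a)
    linarith

theorem potential (v : ℕ → ℝ) (hv : Antitone v) (h0 : ∀ k, 0 ≤ v k) (ρ : ℕ) (hρ : 4 ≤ ρ)
    (η : ℝ) (hη : 0 < η) (hη' : η ≤ 1 / 2)
    (hd : ∀ a, 1 ≤ a → v (ρ * a) ≤ (1 - η) * v a ∨ 4 * (a * v a) ≤ ∑ k ∈ range a, v k + 1)
    (j : ℕ) : v (ρ ^ j) + η / 2 * ((∑ k ∈ range (ρ ^ j), v k + 1) / (ρ ^ j : ℕ)) ≤
      (1 - η / 2) ^ j * (2 * v 0 + 1) := by
  induction j with
  | zero =>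
    have := hv (Nat.zero_le 1)
    have := h0 0
    simp; nlinarith
  | succ j ih =>
    have a1 : 1 ≤ ρ ^ j := Nat.one_le_pow _ _ (by omega)
    rw [pow_succ' ρ, pow_succ' (1 - η / 2), mul_assoc]
    refine le_trans ?_ (mul_le_mul_of_nonneg_left ih (by linarith))
    generalize ρ ^ j = a at *
    have a0 : (0 : ℝ) < a := by exact_mod_cast a1
    have r4 : (4 : ℝ) ≤ ρ := by exact_mod_cast hρ
    have s1 := sum_split v hv h0 (a := a) (N := ρ * a) (c := ρ * a) (by push_cast; linarith)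
      (by positivity)
    have s0 : 0 ≤ ∑ k ∈ range a, v k := sum_nonneg fun k _ => h0 k
    have m1 : v (ρ * a) ≤ v a := hv (Nat.le_mul_of_pos_left a (by omega))
    have va := h0 a
    have hd' := hd a a1
    generalize ∑ k ∈ range a, v k = G at *
    generalize ∑ k ∈ range (ρ * a), v k = G' at *
    obtain ⟨g, hg⟩ : ∃ g, g = (G + 1) / a := ⟨_, rfl⟩
    have hg' : G + 1 = g * a := by rw [hg]; field_simp
    have g0 : 0 ≤ g := by rw [hg]; positivity
    have e1 : (G' + 1) / ((ρ * a : ℕ) : ℝ) ≤ g / 4 + v a := by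
      push_cast
      rw [div_le_iff₀ (by positivity)]
      have : g * a * 4 ≤ g * a * ρ := by gcongr
      nlinarith
    rw [← hg]
    have e2 := mul_le_mul_of_nonneg_left e1 (show 0 ≤ η / 2 by linarith)
    rcases hd' with h | h
    · nlinarith [mul_nonneg hη.le g0, mul_nonneg (mul_nonneg hη.le g0) (show 0 ≤ 1 / 2 - η by linarith)]
    · have e3 : 4 * v a ≤ g := by
        rw [hg'] at h
        exact le_of_mul_le_mul_right (by linarith) a0
      nlinarith [mul_nonneg hη.le g0, mul_nonneg (mul_nonneg hη.le g0) (show 0 ≤ 1 / 2 - η by linarith),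
        mul_le_mul_of_nonneg_left e3 hη.le]

theorem decay (ρ : ℕ) (hρ : 4 ≤ ρ) (η : ℝ) (hη : 0 < η) (hη' : η ≤ 1 / 2) :
    ∃ c : ℝ, 0 < c ∧ ∀ (u : ℕ → ℝ) (κ : ℝ), Antitone u → (∀ k, 0 ≤ u k) → 0 ≤ κ → κ ≤ 1 →
      (∀ k, u k ≤ 648 * κ) →
      (∀ a, 1 ≤ a → u (ρ * a) ≤ (1 - η) * u a ∨
        4 * (a * (κ * u a)) ≤ κ * ∑ k ∈ range a, u k + 1) →
      ∀ k, 1 ≤ k → u k ≤ 2000 * (k : ℝ) ^ (-c) := by
  have r4 : (4 : ℝ) ≤ ρ := by exact_mod_cast hρ
  have l1 : 0 < Real.log ρ := Real.log_pos (by linarith)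
  have t0 : 0 < 1 - η / 4 := by linarith
  have l2 : Real.log (1 - η / 4) < 0 := Real.log_neg t0 (by linarith)
  refine ⟨-Real.log (1 - η / 4) / Real.log ρ, div_pos (by linarith) l1,
    fun u κ hu h0 k0 k1 hb hd k hk => ?_⟩
  set c := -Real.log (1 - η / 4) / Real.log ρ with hc
  have c0 : 0 < c := div_pos (by linarith) l1
  have e0 : (ρ : ℝ) ^ (-c) = 1 - η / 4 := by
    rw [Real.rpow_def_of_pos (by linarith), hc, ← Real.exp_log t0]
    congr 1
    rw [Real.exp_log t0]; field_simp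
  set j := Nat.log ρ k
  have j1 : ρ ^ j ≤ k := Nat.pow_log_le_self ρ (by omega)
  have j2 : k < ρ ^ (j + 1) := Nat.lt_pow_succ_log_self (by omega) k
  have p := potential (fun k => κ * u k) (fun a c h => mul_le_mul_of_nonneg_left (hu h) k0)
    (fun k => mul_nonneg k0 (h0 k)) ρ hρ η hη hη' (fun a ha => by
      rcases hd a ha with h | h
      · left; nlinarith [mul_le_mul_of_nonneg_left h k0]
      · right; rwa [← mul_sum]) j
  have p0 : 0 ≤ η / 2 * ((∑ k ∈ range (ρ ^ j), κ * u k + 1) / (ρ ^ j : ℕ)) := by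
    have : 0 ≤ ∑ k ∈ range (ρ ^ j), κ * u k := sum_nonneg fun k _ => mul_nonneg k0 (h0 k)
    positivity
  have p1 : (1 - η / 2) ^ j ≤ ((1 - η / 4) ^ j) ^ 2 := by
    rw [← pow_mul, mul_comm, pow_mul]
    exact pow_le_pow_left₀ (by linarith) (by nlinarith) j
  have p2 : κ * u 0 ≤ 648 := by nlinarith [hb 0, h0 0]
  have p3 : 0 ≤ (1 - η / 2) ^ j := pow_nonneg (by linarith) j
  have p4 : κ * u (ρ ^ j) ≤ 1297 * ((1 - η / 4) ^ j) ^ 2 := by nlinarith
  have p5 : u (ρ ^ j) ≤ 1000 * (1 - η / 4) ^ j := by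
    refine (pow_le_pow_iff_left₀ (h0 _) (by positivity) two_ne_zero).1 ?_
    nlinarith [mul_le_mul_of_nonneg_right (hb (ρ ^ j)) (h0 (ρ ^ j)), sq_nonneg ((1 - η / 4) ^ j)]
  have p6 : (1 - η / 4) ^ (j + 1) ≤ (k : ℝ) ^ (-c) := by
    rw [← e0, ← Real.rpow_natCast, ← Real.rpow_mul (by linarith), mul_comm,
      Real.rpow_mul (by linarith), Real.rpow_natCast]
    exact Real.rpow_le_rpow_of_nonpos (by exact_mod_cast hk) (by exact_mod_cast j2.le)
      (by linarith)
  have p7 := hu j1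
  have p8 : 0 ≤ (1 - η / 4) ^ j := pow_nonneg t0.le j
  rw [pow_succ] at p6
  nlinarith

variable (ν : Measure (Fin 3)) [IsProbabilityMeasure ν]

theorem kk_le : kk ν ≤ 1 := by
  have : kap ν ≤ 1 := by
    unfold kap
    exact mul_le_one' prob_le_one (mul_le_one' prob_le_one prob_le_one)
  simpa [kk] using ENNReal.toReal_mono (by simp) this

def RR : ℕ := 17 * (200000 ^ 2 * 1458 ^ 2) + 1

theorem alt (a : ℕ) (ha : 1 ≤ a) :
    uu ν (30 * RR * a) ≤ (1 - 1 / (1000 * RR)) * uu ν a ∨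
      4 * (a * (kk ν * uu ν a)) ≤ kk ν * ∑ k ∈ range a, uu ν k + 1 := by
  have k0 : 0 ≤ kk ν := ENNReal.toReal_nonneg
  have u0 := uu_nonneg ν a
  have R2 : 2 ≤ RR := by unfold RR; norm_num
  have Rr : (RR : ℝ) = 17 * (200000 ^ 2 * 1458 ^ 2) + 1 := by unfold RR; norm_num
  have a1 : (1 : ℝ) ≤ a := by exact_mod_cast ha
  have hH : a ≤ RR * a := Nat.le_mul_of_pos_left a (by omega)
  by_cases hq : ∀ α β π, Adm α β → qq ν α β (RR * a) (2 * (a + a)) π ≤ uu ν a / 200000
  · left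
    obtain ⟨x, y, h1, h2, h3⟩ := seg ν (A1 := a) (E := a) (H := RR * a) (by omega)
      (by positivity) hq
    have m1 : uu ν (30 * RR * a) ≤ uu ν (2 * (6 * (RR * a) + 9)) :=
      uu_anti ν (by rw [mul_assoc]; omega)
    have m2 : uu ν (2 * (6 * (RR * a) + 9)) ≤ uu ν a := uu_anti ν (by omega)
    generalize uu ν (2 * (6 * (RR * a) + 9)) = z at *
    have R1 : (2 : ℝ) ≤ RR := by exact_mod_cast R2
    clear Rr
    push_cast at h2 h3
    generalize (RR : ℝ) = R at *
    have H1 : 1 ≤ R * a := by nlinarith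
    have hx : x ≤ 496 * R * (uu ν a - z) := by
      refine le_of_mul_le_mul_left (h2.trans ?_) (show (0 : ℝ) < a by linarith)
      nlinarith [mul_nonneg (show 0 ≤ R * a - 1 by linarith) (show 0 ≤ uu ν a - z by linarith)]
    have hy : y ≤ uu ν a / 4 := by
      refine le_of_mul_le_mul_left (h3.trans ?_) (show (0 : ℝ) < R * a by linarith)
      nlinarith [mul_nonneg (show 0 ≤ R * a - 1 by linarith) u0]
    refine m1.trans ?_
    have e : (1 - 1 / (1000 * R)) * uu ν a = uu ν a - uu ν a / (1000 * R) := by ring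
    have : uu ν a / (1000 * R) ≤ uu ν a - z := by
      rw [div_le_iff₀ (by linarith)]
      nlinarith [mul_nonneg (show 0 ≤ R - 2 by linarith) (show 0 ≤ uu ν a - z by linarith)]
    linarith
  · right
    push Not at hq
    obtain ⟨α, β, π, hA, hq⟩ := hq
    have h1 := star ν α β (RR * a) (2 * (a + a)) hA π a ((RR - 1) * a)
      (by rw [Nat.sub_one_mul]; omega)
    have h2 := sum_split (uu ν) (fun _ _ h => uu_anti ν h) (uu_nonneg ν) (a := a)
      (N := 2 * (2 * (a + a)) + 6) (c := 13 * a) (by push_cast; linarith) (by positivity)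
    have G0 : 0 ≤ ∑ k ∈ range a, uu ν k := sum_nonneg fun k _ => uu_nonneg ν k
    rcases u0.eq_or_lt with h | h
    · rw [← h]; simp; positivity
    rw [Nat.cast_mul, Nat.cast_sub (by omega), Rr] at h1
    generalize ∑ k ∈ range a, uu ν k = G at *
    generalize ∑ k ∈ range (2 * (2 * (a + a)) + 6), uu ν k = G' at *
    generalize qq ν α β (RR * a) (2 * (a + a)) π = q at *
    generalize uu ν a = u at *
    generalize kk ν = κ at *
    have h3 : (u / 200000) ^ 2 ≤ q ^ 2 := by gcongr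
    have h4 : (17 * 1458 ^ 2 * (a * (κ * u))) * u ≤ (1458 * (1458 * κ * G' + 3)) * u := by
      refine le_trans ?_ h1
      have : 0 ≤ (a : ℝ) * κ := by positivity
      push_cast
      nlinarith [mul_le_mul_of_nonneg_left h3 this]
    have h5 := le_of_mul_le_mul_right h4 h
    nlinarith [mul_le_mul_of_nonneg_left h2 k0]

theorem far_bound : ∃ c : ℝ, 0 < c ∧ ∀ (ν : Measure (Fin 3)) [IsProbabilityMeasure ν]
    (n K : ℕ), 1 ≤ K → (dens ν (Far n (2 * K))).toReal ≤ 2000 * (n + 1) / (K : ℝ) ^ (1 + c) := by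
  have R2 : (2 : ℝ) ≤ RR := by unfold RR; norm_num
  obtain ⟨c, c0, h⟩ := decay (30 * RR) (by unfold RR; norm_num) (1 / (1000 * RR)) (by positivity)
    (by rw [div_le_div_iff₀ (by positivity) (by positivity)]; linarith)
  refine ⟨c, c0, fun ν _ n K hK => ?_⟩
  have h1 := h (uu ν) (kk ν) (fun _ _ h => uu_anti ν h) (uu_nonneg ν) ENNReal.toReal_nonneg
    (kk_le ν) (uu_le ν) (alt ν) K hK
  have h2 := ENNReal.toReal_mono (ENNReal.mul_ne_top (ENNReal.natCast_ne_top _) (dens_ne_top ν _))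
    (far_le ν n (2 * K) K K (by omega))
  simp only [ENNReal.toReal_mul, ENNReal.toReal_natCast] at h2
  change _ ≤ _ * uu ν K at h2
  have K0 : (0 : ℝ) < K := by exact_mod_cast hK
  rw [Real.rpow_neg K0.le] at h1
  rw [Real.rpow_add K0, Real.rpow_one, le_div_iff₀ (by positivity)]
  have p0 : 0 < (K : ℝ) ^ c := by positivity
  have h3 : uu ν K * (K : ℝ) ^ c ≤ 2000 := by
    have := mul_le_mul_of_nonneg_right h1 p0.le
    rwa [mul_assoc, inv_mul_cancel₀ p0.ne', mul_one] at this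
  push_cast at h2
  have n0 : (0 : ℝ) ≤ n + 1 := by positivity
  nlinarith [mul_le_mul_of_nonneg_right h2 p0.le, mul_le_mul_of_nonneg_left h3 n0]

end Pool.Agent.MP_5f6c2d_pr.h58

end MrgPart4

-- marker of a merged file
example : 731051 + 572350 = 731051 + 572350 := rfl
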